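import Pool.Agent.MP_34a893_an.C.Spec

/-! A completely monotone kernel is a limit of finite mixtures of exponentials. -/

open MeasureTheory Set Filter Topology

namespace MP34a893.C

namespace ApxP

noncomputable section

/-- truncated powers -/
def a (j : ℕ) (t s : ℝ) : ℝ := max (1 - s / t) 0 ^ j

def ex (c s : ℝ) : ℝ := Real.exp (-(c * s))

theorem a_nonneg (j : ℕ) (t s : ℝ) : 0 ≤ a j t s := pow_nonneg (le_max_right _ _) _

theorem a_meas (j : ℕ) : Measurable fun p : ℝ × ℝ => a j p.1 p.2 := by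
  unfold a
  fun_prop

theorem a_zero (j : ℕ) {t s : ℝ} (ht : 0 < t) (h : t ≤ s) : a (j + 1) t s = 0 := by
  rw [a, max_eq_right (sub_nonpos.2 ((one_le_div ht).2 h)), zero_pow (by omega)]

theorem a_eq (j : ℕ) {t s : ℝ} (ht : 0 < t) (h : s ≤ t) : a j t s = (1 - s / t) ^ j := by
  rw [a, max_eq_left (sub_nonneg.2 ((div_le_one ht).2 h))]

theorem a_int (j : ℕ) {t : ℝ} (ht : 0 < t) (s : ℝ) : IntegrableOn (a (j + 1) t) (Ioi s) ∧
    ∫ r in Ioi s, a (j + 1) t r = t / (j + 2) * a (j + 2) t s := by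
  have hc : Continuous (a (j + 1) t) := by
    unfold a
    fun_prop
  have h0 : ∀ r ∈ Ioi s \ Ioc s t, a (j + 1) t r = 0 := fun r hr =>
    a_zero j ht (le_of_not_ge fun h => hr.2 ⟨hr.1, h⟩)
  refine ⟨(hc.integrableOn_Ioc (a := s) (b := t)).of_forall_sdiff_eq_zero measurableSet_Ioi h0, ?_⟩
  rw [setIntegral_eq_of_subset_of_forall_sdiff_eq_zero measurableSet_Ioi Ioc_subset_Ioi_self h0]
  rcases le_total s t with h | h
  · rw [setIntegral_congr_fun measurableSet_Ioc fun r hr => a_eq (j + 1) ht hr.2,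
      ← intervalIntegral.integral_of_le h,
      intervalIntegral.integral_comp_sub_div (fun x => x ^ (j + 1)) ht.ne', integral_pow,
      a_eq _ ht h, div_self ht.ne', sub_self, zero_pow (by omega), smul_eq_mul]
    push_cast
    ring
  · rw [Ioc_eq_empty (not_lt.2 h), setIntegral_empty, a_zero (j + 1) ht h, mul_zero]

theorem a_le_ex (j : ℕ) (t s : ℝ) : a j t s ≤ ex (j / t) s := by
  have h : max (1 - s / t) 0 ≤ Real.exp (-(s / t)) :=
    max_le (Real.one_sub_le_exp_neg _) (Real.exp_pos _).le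
  refine (pow_le_pow_left₀ (le_max_right _ _) h j).trans_eq ?_
  rw [← Real.exp_nat_mul, ex]
  congr 1
  ring

theorem a_succ (j : ℕ) {t s : ℝ} (ht : 0 < t) (hs : 0 < s) : a (j + 1) t s ≤ a j t s :=
  pow_le_pow_of_le_one (le_max_right _ _)
    (max_le (sub_le_self _ (div_pos hs ht).le) zero_le_one) (Nat.le_succ j)

/-- integrable with a given integral -/
def HI (f : ℝ → ℝ) (I : ℝ) : Prop := IntegrableOn f (Ioi 0) ∧ ∫ s in Ioi (0 : ℝ), f s = I

theorem HI.mul {f : ℝ → ℝ} {I : ℝ} (h : HI f I) (c : ℝ) : HI (fun s => c * f s) (c * I) :=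
  ⟨h.1.const_mul c, by rw [integral_const_mul, h.2]⟩

theorem hi_a (j : ℕ) {t : ℝ} (ht : 0 < t) : HI (a (j + 1) t) (t / (j + 2)) :=
  ⟨(a_int j ht 0).1, by rw [(a_int j ht 0).2, a_eq _ ht ht.le]; simp⟩

theorem hi_ex {c : ℝ} (hc : 0 < c) : HI (ex c) (1 / c) := by
  have e : ex c = fun s => Real.exp (-c * s) := by
    funext s
    rw [ex, neg_mul]
  rw [e]
  refine ⟨integrableOn_exp_mul_Ioi (neg_lt_zero.2 hc) 0, ?_⟩
  rw [integral_exp_mul_Ioi (neg_lt_zero.2 hc)]
  simp

/-- distance at most `B` -/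
def Dom (f g : ℝ → ℝ) (B : ℝ) : Prop := ∃ d : ℝ → ℝ, IntegrableOn d (Ioi 0) ∧
  (∀ s, 0 < s → |f s - g s| ≤ d s) ∧ ∫ s in Ioi (0 : ℝ), d s ≤ B

variable {f g h : ℝ → ℝ} {B B' I J : ℝ}

theorem Dom.symm (h : Dom f g B) : Dom g f B :=
  h.imp fun _ h => ⟨h.1, fun s hs => abs_sub_comm (f s) (g s) ▸ h.2.1 s hs, h.2.2⟩

theorem Dom.mono (h : Dom f g B) (hB : B ≤ B') : Dom f g B' :=
  h.imp fun _ h => ⟨h.1, h.2.1, h.2.2.trans hB⟩

theorem Dom.trans (h1 : Dom f g B) (h2 : Dom g h B') : Dom f h (B + B') := by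
  obtain ⟨d, i, p, q⟩ := h1
  obtain ⟨d', i', p', q'⟩ := h2
  refine ⟨fun s => d s + d' s, i.add i', fun s hs =>
    (abs_sub_le _ _ _).trans (add_le_add (p s hs) (p' s hs)), ?_⟩
  rw [integral_add i i']
  exact add_le_add q q'

theorem Dom.of_le (hf : HI f I) (hg : HI g J) (h : ∀ s, 0 < s → g s ≤ f s) : Dom f g (I - J) :=
  ⟨fun s => f s - g s, hf.1.sub hg.1, fun s hs => (abs_of_nonneg (sub_nonneg.2 (h s hs))).le, by
    rw [integral_sub hf.1 hg.1, hf.2, hg.2]⟩

theorem Dom.lint (h : Dom f g B) : ∫⁻ s in Ioi (0 : ℝ), ‖f s - g s‖ₑ ≤ ENNReal.ofReal B := by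
  obtain ⟨d, i, p, q⟩ := h
  have hd : ∀ᵐ s ∂volume.restrict (Ioi (0 : ℝ)), |f s - g s| ≤ d s :=
    (ae_restrict_mem measurableSet_Ioi).mono p
  refine le_trans (lintegral_mono_ae (hd.mono fun s hs => ?_))
    ((ofReal_integral_eq_lintegral_ofReal i
      (hd.mono fun s hs => (abs_nonneg _).trans hs)).symm.le.trans (ENNReal.ofReal_le_ofReal q))
  rw [Real.enorm_eq_ofReal_abs]
  exact ENNReal.ofReal_le_ofReal hs

theorem ex_le {c c' s : ℝ} (h : c' ≤ c) (hs : 0 < s) : ex c s ≤ ex c' s :=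
  Real.exp_le_exp.2 (neg_le_neg (mul_le_mul_of_nonneg_right h hs.le))

/-- the error of moving an atom -/
def mv (t u : ℝ) : ℝ := 2 * (|t - u| / max t u) + |t - u|

theorem mv_comm (t u : ℝ) : mv t u = mv u t := by rw [mv, mv, abs_sub_comm, max_comm]

theorem dom_mv {N t u : ℝ} (hN : 1 ≤ N) (ht : 0 < t) (hu : 0 < u) :
    Dom (ex (N / t)) (ex (N / u)) (mv t u) ∧
      Dom (fun s => N / t * ex (N / t) s) (fun s => N / u * ex (N / u) s) (mv t u) := by
  wlog h : t ≤ u generalizing t u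
  · rw [mv_comm]
    exact (this hu ht (le_of_not_ge h)).imp Dom.symm Dom.symm
  have hN0 : 0 < N := by linarith
  have h1 := div_pos hN0 ht
  have h2 := div_pos hN0 hu
  have h3 : N / u ≤ N / t := div_le_div_of_nonneg_left hN0.le ht h
  have h4 : 0 ≤ u - t := sub_nonneg.2 h
  rw [mv, abs_sub_comm, abs_of_nonneg h4, max_eq_right h]
  constructor
  · refine (Dom.of_le (hi_ex h2) (hi_ex h1) fun s hs => ex_le h3 hs).symm.mono ?_
    have : 1 / (N / u) - 1 / (N / t) = (u - t) / N := by field_simp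
    have h5 : (u - t) / N ≤ u - t := div_le_self h4 hN
    have h6 : 0 ≤ (u - t) / u := div_nonneg h4 hu.le
    linarith
  · refine ((Dom.of_le ((hi_ex h1).mul (N / t)) ((hi_ex h1).mul (N / u)) fun s hs =>
      mul_le_mul_of_nonneg_right h3 (Real.exp_pos _).le).trans
      (Dom.of_le ((hi_ex h2).mul (N / u)) ((hi_ex h1).mul (N / u)) fun s hs =>
        mul_le_mul_of_nonneg_left (ex_le h3 hs) h2.le).symm).mono ?_
    have : N / t * (1 / (N / t)) - N / u * (1 / (N / t)) +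
      (N / u * (1 / (N / u)) - N / u * (1 / (N / t))) = 2 * ((u - t) / u) := by
      field_simp
      ring
    linarith

theorem dom_k (n : ℕ) {t u : ℝ} (ht : 0 < t) (hu : 0 < u) :
    Dom (a (n + 2) t) (ex ((n + 2 : ℕ) / u)) (t / ((n + 2) * (n + 3)) + mv t u) := by
  have hN : (1 : ℝ) ≤ (n + 2 : ℕ) := by exact_mod_cast (by omega : 1 ≤ n + 2)
  refine ((Dom.of_le (hi_ex (div_pos (by linarith) ht)) (hi_a (n + 1) ht) fun s _ =>
    a_le_ex (n + 2) t s).symm.trans (dom_mv hN ht hu).1).mono (le_of_eq ?_)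
  push_cast
  field_simp
  ring

theorem dom_g (n : ℕ) {t u : ℝ} (ht : 0 < t) (hu : 0 < u) :
    Dom (fun s => (n + 2 : ℕ) / t * a (n + 1) t s)
      (fun s => (n + 2 : ℕ) / u * ex ((n + 2 : ℕ) / u) s) (2 / (n + 3) + mv t u) := by
  have hN : (1 : ℝ) ≤ (n + 2 : ℕ) := by exact_mod_cast (by omega : 1 ≤ n + 2)
  have h1 : 0 < ((n + 2 : ℕ) : ℝ) / t := div_pos (by linarith) ht
  refine (((Dom.of_le ((hi_a n ht).mul _) ((hi_a (n + 1) ht).mul _) fun s hs =>
    mul_le_mul_of_nonneg_left (a_succ (n + 1) ht hs) h1.le).trans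
    (Dom.of_le ((hi_ex h1).mul _) ((hi_a (n + 1) ht).mul _) fun s _ =>
      mul_le_mul_of_nonneg_left (a_le_ex (n + 2) t s) h1.le).symm).trans
    (dom_mv hN ht hu).2).mono (le_of_eq ?_)
  push_cast
  field_simp
  ring

/-- comparison of two mixtures -/
theorem cmp {m : Measure ℝ} [SFinite m] {u v : ℝ → ℝ → ℝ} {G H β : ℝ → ℝ}
    (hu : Measurable fun p : ℝ × ℝ => u p.1 p.2) (hv : Measurable fun p : ℝ × ℝ => v p.1 p.2)
    (hG : ∀ᵐ s, 0 < s → Integrable (fun t => u t s) m ∧ G s = ∫ t, u t s ∂m)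
    (hH : ∀ s, Integrable (fun t => v t s) m ∧ ∫ t, v t s ∂m = H s)
    (hβ : Integrable β m) (h0 : ∀ᵐ t ∂m, 0 ≤ β t) (hd : ∀ᵐ t ∂m, Dom (u t) (v t) (β t)) :
    ∫ s in Ioi (0 : ℝ), |G s - H s| ≤ ∫ t, β t ∂m := by
  refine (Real.le_norm_self _).trans ((norm_integral_le_lintegral_norm _).trans
    (ENNReal.toReal_le_of_le_ofReal (integral_nonneg_of_ae h0) ?_))
  calc ∫⁻ s in Ioi (0 : ℝ), ENNReal.ofReal ‖|G s - H s|‖
      ≤ ∫⁻ s in Ioi (0 : ℝ), ∫⁻ t, ‖u t s - v t s‖ₑ ∂m := by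
        refine lintegral_mono_ae ?_
        filter_upwards [ae_restrict_of_ae hG, ae_restrict_mem measurableSet_Ioi] with s h hs
        rw [(h hs).2, ← (hH s).2, ← integral_sub (h hs).1 (hH s).1, Real.norm_eq_abs, abs_abs,
          ← Real.enorm_eq_ofReal_abs]
        exact enorm_integral_le_lintegral_enorm _
    _ = ∫⁻ t, (∫⁻ s in Ioi (0 : ℝ), ‖u t s - v t s‖ₑ) ∂m :=
        lintegral_lintegral_swap ((hu.sub hv).comp measurable_swap).enorm.aemeasurable
    _ ≤ ∫⁻ t, ENNReal.ofReal (β t) ∂m := lintegral_mono_ae (hd.mono fun t h => h.lint)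
    _ = _ := (ofReal_integral_eq_lintegral_ofReal hβ h0).symm

theorem mix (m : Measure ℝ) [IsFiniteMeasure m] (φ : SimpleFunc ℝ ℝ) (hφ : ∀ t, 0 < φ t) :
    ∃ (n : ℕ) (ρ v : Fin n → ℝ), (∀ i, 0 ≤ ρ i) ∧ (∀ i, 0 < v i) ∧ ∀ ψ : ℝ → ℝ,
      Integrable (fun t => ψ (φ t)) m ∧ ∫ t, ψ (φ t) ∂m = ∑ i, ρ i * ψ (v i) := by
  refine ⟨_, fun i => m.real (φ ⁻¹' {(φ.range.equivFin.symm i : ℝ)}),
    fun i => φ.range.equivFin.symm i, fun i => measureReal_nonneg, fun i => ?_, fun ψ =>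
    ⟨(φ.map ψ).integrable_of_isFiniteMeasure, ?_⟩⟩
  · obtain ⟨t, ht⟩ := SimpleFunc.mem_range.1 (φ.range.equivFin.symm i).2
    exact (hφ t).trans_eq ht
  · rw [φ.range.equivFin.symm.sum_comp fun x => m.real (φ ⁻¹' {(x : ℝ)}) * ψ x,
      φ.range.sum_coe_sort fun x => m.real (φ ⁻¹' {x}) * ψ x]
    have e : (fun t => ψ (φ t)) = fun t => ∑ x ∈ φ.range, (φ ⁻¹' {x}).indicator (fun _ => ψ x) t := by
      funext t
      rw [Finset.sum_eq_single (φ t)]
      · rw [indicator_of_mem (by simp)]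
      · exact fun x _ hx => indicator_of_notMem (fun h => hx (Eq.symm h)) _
      · exact fun h => absurd (φ.mem_range_self t) h
    rw [e, integral_finsetSum _ fun x _ => (integrable_const _).indicator (φ.measurableSet_fiber x)]
    exact Finset.sum_congr rfl fun x _ => integral_indicator_const _ (φ.measurableSet_fiber x)

theorem mv_nonneg {t u : ℝ} (ht : 0 < t) : 0 ≤ mv t u :=
  add_nonneg (mul_nonneg zero_le_two (div_nonneg (abs_nonneg _) (le_max_of_le_left ht.le)))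
    (abs_nonneg _)

/-- atoms -/
theorem atoms (m : Measure ℝ) [IsFiniteMeasure m] (h0 : ∀ᵐ t ∂m, 0 < t)
    (h1 : Integrable (fun t => t) m) {ε : ℝ} (hε : 0 < ε) : ∃ φ : SimpleFunc ℝ ℝ, (∀ t, 0 < φ t) ∧
      Integrable (fun t => mv t (φ t)) m ∧ ∫ t, mv t (φ t) ∂m ≤ ε := by
  let φ : ℕ → SimpleFunc ℝ ℝ :=
    SimpleFunc.approxOn id measurable_id (Ioi 0) 1 (mem_Ioi.2 zero_lt_one)
  have hp (j : ℕ) (t : ℝ) : 0 < φ j t := SimpleFunc.approxOn_mem _ _ j t
  have hm (j : ℕ) : AEStronglyMeasurable (fun t => mv t (φ j t)) m := by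
    have := (φ j).measurable
    refine Measurable.aestronglyMeasurable ?_
    unfold mv
    fun_prop
  have hi : Integrable (fun t : ℝ => 2 + |1 - t|) m :=
    (integrable_const _).add ((integrable_const _).sub h1).abs
  have hb (j : ℕ) : ∀ᵐ t ∂m, ‖mv t (φ j t)‖ ≤ 2 + |1 - t| := by
    filter_upwards [h0] with t ht
    have e := SimpleFunc.edist_approxOn_le measurable_id (s := Ioi (0 : ℝ))
      (mem_Ioi.2 zero_lt_one) t j
    rw [edist_dist, edist_dist, ENNReal.ofReal_le_ofReal_iff dist_nonneg, Real.dist_eq,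
      Real.dist_eq, abs_sub_comm] at e
    have e2 : |t - φ j t| / max t (φ j t) ≤ 1 := by
      refine (div_le_one (lt_max_of_lt_left ht)).2 (abs_le.2 ⟨?_, ?_⟩)
      · linarith [le_max_right t (φ j t)]
      · linarith [le_max_left t (φ j t), hp j t]
    rw [Real.norm_of_nonneg (mv_nonneg ht), mv]
    exact add_le_add (by linarith) e
  have hl : Tendsto (fun j => ∫ t, mv t (φ j t) ∂m) atTop (𝓝 (∫ _, 0 ∂m)) := by
    refine tendsto_integral_of_dominated_convergence _ hm hi hb ?_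
    filter_upwards [h0] with t ht
    have e : Tendsto (fun j => φ j t) atTop (𝓝 t) :=
      SimpleFunc.tendsto_approxOn measurable_id _ (subset_closure ht)
    have c : ContinuousAt (mv t) t := by
      unfold mv
      fun_prop (disch := exact (lt_max_of_lt_left ht).ne')
    have := c.tendsto.comp e
    rwa [show mv t t = 0 by simp [mv]] at this
  rw [integral_zero] at hl
  obtain ⟨j, hj⟩ := (hl.eventually (ge_mem_nhds hε)).exists
  exact ⟨φ j, hp j, hi.mono' (hm j) (hb j), hj⟩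

theorem of_lint {m : Measure ℝ} {f : ℝ → ℝ} {c : ℝ} (hf : Measurable f) (h0 : ∀ᵐ t ∂m, 0 ≤ f t)
    (hc : 0 ≤ c) (h : ENNReal.ofReal c = ∫⁻ t, ENNReal.ofReal (f t) ∂m) :
    Integrable f m ∧ c = ∫ t, f t ∂m :=
  ⟨(lintegral_ofReal_ne_top_iff_integrable hf.aestronglyMeasurable h0).1
    (h ▸ ENNReal.ofReal_ne_top), by
    rw [integral_eq_lintegral_of_nonneg_ae h0 hf.aestronglyMeasurable, ← h,
      ENNReal.toReal_ofReal hc]⟩

/-- the mixing measure -/
theorem rep {P : Par} {F : ℕ → ℝ → ℝ} (hR : RepS) (h : Seq P F) (n : ℕ) :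
    ∃ m : Measure ℝ, SFinite m ∧ (∀ᵐ t ∂m, 0 < t) ∧ ∀ᵐ s, 0 < s → ENNReal.ofReal (P.g s) =
      ∫⁻ t, ENNReal.ofReal ((n + 2 : ℕ) / t * a (n + 1) t s) ∂m := by
  have hF := h.meas (n + 3)
  have hw : Measurable fun t : ℝ =>
      ENNReal.ofReal (t ^ (n + 2) / (n + 2).factorial * F (n + 3) t) := by fun_prop
  refine ⟨(volume.restrict (Ioi 0)).withDensity fun t =>
    ENNReal.ofReal (t ^ (n + 2) / (n + 2).factorial * F (n + 3) t), inferInstance,
    withDensity_absolutelyContinuous _ _ (ae_restrict_mem measurableSet_Ioi), ?_⟩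
  filter_upwards [h.g_eq] with s hg hs
  obtain ⟨i, e⟩ := hR P F h (n + 1) s hs
  have ha : Measurable fun t : ℝ => a (n + 1) t s :=
    (a_meas (n + 1)).comp (measurable_id.prodMk measurable_const)
  rw [hg hs, e, ofReal_integral_eq_lintegral_ofReal i
      ((ae_restrict_mem measurableSet_Ioi).mono fun t ht => mul_nonneg
        (div_nonneg (pow_nonneg (sub_nonneg.2 (le_of_lt ht)) _) (Nat.cast_nonneg _))
        (h.nonneg _ _ (hs.trans ht))),
    lintegral_withDensity_eq_lintegral_mul _ hw (by fun_prop),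
    ← lintegral_indicator measurableSet_Ioi, ← lintegral_indicator measurableSet_Ioi]
  refine lintegral_congr fun t => ?_
  by_cases h1 : s < t
  · have ht := hs.trans h1
    rw [indicator_of_mem (mem_Ioi.2 h1), indicator_of_mem (mem_Ioi.2 ht), Pi.mul_apply,
      ← ENNReal.ofReal_mul (mul_nonneg (by positivity) (h.nonneg _ _ ht)), a_eq _ ht h1.le,
      Nat.factorial_succ (n + 1), one_sub_div ht.ne', div_pow]
    congr 1
    push_cast
    field_simp
    ring
  · rw [indicator_of_notMem (by exact h1)]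
    by_cases ht : 0 < t
    · rw [indicator_of_mem (mem_Ioi.2 ht), Pi.mul_apply, a_zero n ht (not_lt.1 h1)]
      simp
    · rw [indicator_of_notMem (by exact ht)]

end

end ApxP

open ApxP in
theorem apxS (hP : ParFactsS) (hR : RepS) : ApxS := by
  intro P F h ε hε
  have f := hP P 1 one_pos
  obtain ⟨n, hn⟩ := exists_nat_gt ((2 * P.k0 + 1) / (ε / 2))
  obtain ⟨m, _, h0, hg⟩ := rep hR h n
  have hA : Measurable fun p : ℝ × ℝ => ((n + 2 : ℕ) : ℝ) / p.1 * a (n + 1) p.1 p.2 :=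
    (measurable_const.div measurable_fst).mul (a_meas _)
  have hk (s : ℝ) (hs : 0 ≤ s) :
      ENNReal.ofReal (P.k s) = ∫⁻ t, ENNReal.ofReal (a (n + 2) t s) ∂m := by
    rw [Par.k, ofReal_integral_eq_lintegral_ofReal P.hgi.integrableOn (ae_of_all _ P.hg0),
      setLIntegral_congr_fun_ae measurableSet_Ioi (hg.mono fun r hr h => hr (hs.trans_lt h)),
      lintegral_lintegral_swap (hA.comp measurable_swap).ennreal_ofReal.aemeasurable]
    refine lintegral_congr_ae (h0.mono fun t ht => ?_)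
    obtain ⟨i, e⟩ := a_int n ht s
    dsimp only
    rw [← ofReal_integral_eq_lintegral_ofReal (i.const_mul _)
      (ae_of_all _ fun r => mul_nonneg (by positivity) (a_nonneg _ _ _)), integral_const_mul, e]
    congr 1
    push_cast
    field_simp
  have hk' (s : ℝ) (hs : 0 ≤ s) := of_lint
    ((a_meas (n + 2)).comp (measurable_id.prodMk measurable_const))
    (ae_of_all _ fun t => a_nonneg _ _ _) (f.k_nonneg s) (hk s hs)
  have e0 : m univ = ENNReal.ofReal P.k0 := by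
    rw [Par.k0, hk 0 le_rfl]
    simp [a]
  have _ : IsFiniteMeasure m := ⟨e0 ▸ ENNReal.ofReal_lt_top⟩
  have e1 : m.real univ = P.k0 := by rw [Measure.real, e0, ENNReal.toReal_ofReal f.k0_pos.le]
  obtain ⟨i1, e2⟩ := of_lint (m := m) (f := fun t => t / (n + 3)) (by fun_prop)
    (h0.mono fun t ht => by positivity) zero_le_one (by
      rw [← f.k_one, ofReal_integral_eq_lintegral_ofReal f.k_int (ae_of_all _ f.k_nonneg),
        setLIntegral_congr_fun measurableSet_Ioi fun s hs => hk s (le_of_lt hs),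
        lintegral_lintegral_swap
          ((a_meas (n + 2)).comp measurable_swap).ennreal_ofReal.aemeasurable]
      refine lintegral_congr_ae (h0.mono fun t ht => ?_)
      obtain ⟨i, e⟩ := hi_a (n + 1) ht
      dsimp only
      rw [← ofReal_integral_eq_lintegral_ofReal i (ae_of_all _ fun r => a_nonneg _ _ _), e]
      congr 2
      push_cast
      ring)
  have i2 : Integrable (fun t => t) m := by
    refine (i1.mul_const (n + 3)).congr (ae_of_all _ fun t => ?_)
    field_simp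
  obtain ⟨φ, hφ, i3, e3⟩ := atoms m h0 i2 (half_pos hε)
  obtain ⟨N, ρ, v, hρ, hv, hψ⟩ := mix m φ hφ
  have hφm := φ.measurable
  have hn' : 2 * P.k0 + 1 < n * (ε / 2) := (div_lt_iff₀ (half_pos hε)).1 hn
  have k0 := f.k0_pos
  refine ⟨N, ρ, fun i => (n + 2 : ℕ) / v i, hρ, fun i => div_pos (by positivity) (hv i), ?_, ?_, ?_⟩
  · simpa [e1] using (hψ fun _ => 1).2.symm
  · refine (cmp (v := fun t s => (n + 2 : ℕ) / φ t * ex ((n + 2 : ℕ) / φ t) s)
      (β := fun t => 2 / (n + 3) + mv t (φ t)) hA (by unfold ex; fun_prop)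
      (hg.mono fun s h hs => of_lint (hA.comp (measurable_id.prodMk measurable_const))
        (h0.mono fun t ht => mul_nonneg (by positivity) (a_nonneg _ _ _)) (P.hg0 s) (h hs))
      (fun s => ?_) ((integrable_const _).add i3)
      (h0.mono fun t ht => add_nonneg (by positivity) (mv_nonneg ht))
      (h0.mono fun t ht => dom_g n ht (hφ t))).trans ?_
    · simp only [mg, mul_assoc]
      exact hψ fun x => (n + 2 : ℕ) / x * ex ((n + 2 : ℕ) / x) s
    · rw [integral_add (integrable_const _) i3, integral_const, e1, smul_eq_mul]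
      have : P.k0 * (2 / (n + 3)) ≤ ε / 2 := by
        rw [← mul_div_assoc, div_le_iff₀ (by positivity)]
        nlinarith
      linarith
  · have e : ∀ t : ℝ, t / ((n + 2) * (n + 3)) = t / (n + 3) * (1 / (n + 2)) := fun t => by
      field_simp
    have i4 : Integrable (fun t : ℝ => t / ((n + 2) * (n + 3))) m := i2.div_const _
    refine (cmp (v := fun t s => ex ((n + 2 : ℕ) / φ t) s)
      (β := fun t => t / ((n + 2) * (n + 3)) + mv t (φ t)) (a_meas (n + 2))
      (by unfold ex; fun_prop) (ae_of_all _ fun s hs => hk' s hs.le)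
      (fun s => hψ fun x => ex ((n + 2 : ℕ) / x) s) (i4.add i3)
      (h0.mono fun t ht => add_nonneg (by positivity) (mv_nonneg ht))
      (h0.mono fun t ht => dom_k n ht (hφ t))).trans ?_
    rw [integral_add i4 i3]
    simp only [e]
    rw [integral_mul_const, ← e2, one_mul]
    have : 1 / ((n : ℝ) + 2) ≤ ε / 2 := by
      rw [div_le_iff₀ (by positivity)]
      nlinarith
    linarith

end MP34a893.C
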