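import Pool.Agent.MP_34a893_an.C.Spec
import Mathlib.Analysis.InnerProductSpace.PiL2

/-! Conjugate gradients. -/

open Set

namespace MP34a893.C

namespace Cg

variable {n : ℕ} (ρ l : Fin n → ℝ)

noncomputable def ip (a b : Fin n → ℝ) : ℝ := ∑ i, ρ i * (a i * b i)

noncomputable def st : ℕ → (Fin n → ℝ) × (Fin n → ℝ)
  | 0 => (fun _ => 1, fun _ => 1)
  | j + 1 =>
    (fun i => (st j).1 i - ip ρ (st j).1 (st j).1 / ip ρ (l * (st j).2) (st j).2 * (l i * (st j).2 i),
     fun i => (st j).1 i - ip ρ (st j).1 (st j).1 / ip ρ (l * (st j).2) (st j).2 * (l i * (st j).2 i) +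
       ip ρ (fun i => (st j).1 i -
           ip ρ (st j).1 (st j).1 / ip ρ (l * (st j).2) (st j).2 * (l i * (st j).2 i))
         (fun i => (st j).1 i -
           ip ρ (st j).1 (st j).1 / ip ρ (l * (st j).2) (st j).2 * (l i * (st j).2 i)) /
         ip ρ (st j).1 (st j).1 * (st j).2 i)

noncomputable def r (j : ℕ) : Fin n → ℝ := (st ρ l j).1
noncomputable def p (j : ℕ) : Fin n → ℝ := (st ρ l j).2
noncomputable def R (j : ℕ) : ℝ := ip ρ (r ρ l j) (r ρ l j)
noncomputable def Q (j : ℕ) : ℝ := ip ρ (l * p ρ l j) (p ρ l j)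

theorem r_succ (j : ℕ) (i : Fin n) :
    r ρ l (j + 1) i = r ρ l j i - R ρ l j / Q ρ l j * (l i * p ρ l j i) := rfl

theorem p_succ (j : ℕ) (i : Fin n) :
    p ρ l (j + 1) i = r ρ l (j + 1) i + R ρ l (j + 1) / R ρ l j * p ρ l j i := rfl

variable {ρ l}

theorem ip_lin (a b c x : Fin n → ℝ) (t : ℝ) (h : ∀ i, a i = b i + t * c i) :
    ip ρ a x = ip ρ b x + t * ip ρ c x := by
  simp only [ip, Finset.mul_sum, ← Finset.sum_add_distrib]
  exact Finset.sum_congr rfl fun i _ => by rw [h]; ring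

theorem ip_comm (a b : Fin n → ℝ) : ip ρ a b = ip ρ b a :=
  Finset.sum_congr rfl fun i _ => by ring

theorem ip_l (a b : Fin n → ℝ) : ip ρ (l * a) b = ip ρ (l * b) a :=
  Finset.sum_congr rfl fun i _ => by simp only [Pi.mul_apply]; ring

theorem Q_pos (hρ : ∀ i, 0 ≤ ρ i) (hl : ∀ i, 0 < l i) {a b : Fin n → ℝ} (h : ip ρ a b ≠ 0) :
    0 < ip ρ (l * b) b := by
  obtain ⟨i, -, hi⟩ := Finset.exists_ne_zero_of_sum_ne_zero h
  have h1 : 0 < ρ i := (hρ i).lt_of_ne' (left_ne_zero_of_mul hi)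
  have h2 : b i ≠ 0 := right_ne_zero_of_mul (right_ne_zero_of_mul hi)
  refine Finset.sum_pos' (fun k _ => mul_nonneg (hρ k) ?_) ⟨i, Finset.mem_univ _, mul_pos h1 ?_⟩
  · rw [Pi.mul_apply, mul_assoc]
    exact mul_nonneg (hl k).le (mul_self_nonneg _)
  · rw [Pi.mul_apply, mul_assoc]
    exact mul_pos (hl i) (mul_self_pos.2 h2)

theorem rr {j : ℕ} {x : Fin n → ℝ} (h : ∀ i < j, ip ρ x (p ρ l i) = 0) :
    ∀ i < j, ip ρ x (r ρ l i) = 0 := by
  intro i hi
  rcases i with _ | i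
  · exact h 0 hi
  · have := ip_lin (ρ := ρ) _ _ _ x _ (p_succ ρ l i)
    rw [ip_comm, h _ hi, ip_comm (p ρ l i), h i (by omega), ip_comm] at this
    linarith

theorem rp {j : ℕ} (h : ∀ i < j, ip ρ (r ρ l j) (p ρ l i) = 0) :
    ip ρ (r ρ l j) (p ρ l j) = R ρ l j := by
  rcases j with _ | j
  · rfl
  · have := ip_lin (ρ := ρ) _ _ _ (r ρ l (j + 1)) _ (p_succ ρ l j)
    rw [ip_comm, ip_comm (p ρ l j), h j (by omega), mul_zero, add_zero] at this
    exact this

theorem orth (hρ : ∀ i, 0 ≤ ρ i) (hl : ∀ i, 0 < l i) (j : ℕ) : (∀ i < j, R ρ l i ≠ 0) →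
    (∀ i < j, ip ρ (r ρ l j) (p ρ l i) = 0) ∧ ∀ i < j, ip ρ (l * p ρ l j) (p ρ l i) = 0 := by
  induction j using Nat.strong_induction_on with
  | _ j ih =>
  rcases j with _ | j
  · simp
  intro hR
  have hQ : ∀ i ≤ j, 0 < Q ρ l i := fun i hi => by
    refine Q_pos hρ hl (a := r ρ l i) ?_
    rw [rp (ih i (by omega) fun k hk => hR k (by omega)).1]
    exact hR i (by omega)
  obtain ⟨h1, h2⟩ := ih j (by omega) fun k hk => hR k (by omega)
  have e : ∀ i x, ip ρ (r ρ l (i + 1)) x =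
      ip ρ (r ρ l i) x + -(R ρ l i / Q ρ l i) * ip ρ (l * p ρ l i) x := fun i x =>
    ip_lin _ _ _ _ _ fun k => by rw [r_succ, Pi.mul_apply]; ring
  have a1 : ∀ i < j + 1, ip ρ (r ρ l (j + 1)) (p ρ l i) = 0 := fun i hi => by
    rw [e]
    rcases (Nat.lt_succ_iff.1 hi).lt_or_eq with c | rfl
    · rw [h1 i c, h2 i c, mul_zero, add_zero]
    · have := (hQ i le_rfl).ne'
      rw [rp h1]
      change _ + _ * Q ρ l i = 0
      field_simp
      ring
  refine ⟨a1, fun i hi => ?_⟩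
  have a2 := rr a1
  have a3 := e i (r ρ l (j + 1))
  have q0 := (hQ i (by omega)).ne'
  have r0 := hR i hi
  rw [ip_comm (r ρ l i), a2 i hi, zero_add] at a3
  rw [ip_l, ip_comm, ip_lin _ _ _ _ _ (p_succ ρ l j), ip_comm (r ρ l (j + 1)),
    ip_comm (p ρ l j), ip_l (p ρ l i) (p ρ l j)]
  rcases (Nat.lt_succ_iff.1 hi).lt_or_eq with c | rfl
  · rw [ip_comm, a2 (i + 1) (by omega)] at a3
    rw [h2 i c, mul_zero, add_zero]
    exact (mul_eq_zero.1 a3.symm).resolve_left (neg_ne_zero.2 (div_ne_zero r0 q0))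
  · change R ρ l (i + 1) = _ at a3
    change _ + _ * Q ρ l i = 0
    rw [a3]
    field_simp
    ring

theorem stop (hρ : ∀ i, 0 ≤ ρ i) (hl : ∀ i, 0 < l i) : ∃ m, R ρ l m = 0 := by
  by_contra h
  have h : ∀ m, R ρ l m ≠ 0 := fun m hm => h ⟨m, hm⟩
  let w : Fin (n + 1) → EuclideanSpace ℝ (Fin n) := fun j =>
    WithLp.toLp 2 fun i => √(ρ i) * r ρ l j i
  have e : ∀ a b, inner ℝ (w a) (w b) = ip ρ (r ρ l a) (r ρ l b) := fun a b => by
    simp only [w, PiLp.inner_apply, ip]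
    refine Finset.sum_congr rfl fun i _ => ?_
    have := Real.mul_self_sqrt (hρ i)
    simp only [RCLike.inner_apply, conj_trivial]
    linear_combination (r ρ l a i * r ρ l b i) * this
  have li : LinearIndependent ℝ w := by
    refine linearIndependent_of_ne_zero_of_inner_eq_zero (fun j hj => h j ?_) fun a b hab => ?_
    · rw [R, ← e, hj, inner_zero_left]
    · beta_reduce
      rw [e]
      rcases lt_or_gt_of_ne hab with c | c
      · rw [ip_comm]
        exact rr (orth hρ hl b fun i _ => h i).1 a c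
      · exact rr (orth hρ hl a fun i _ => h i).1 b c
  have := li.fintype_card_le_finrank
  simp at this

end Cg

open Cg in
theorem cgS : CgS := by
  classical
  intro n ρ l hρ hl h0
  have ex := stop hρ hl
  have hm := Nat.find_spec ex
  have hlt : ∀ j < Nat.find ex, R ρ l j ≠ 0 := fun j hj => Nat.find_min ex hj
  set m := Nat.find ex
  have R0 : ∀ j, 0 ≤ R ρ l j := fun j => by
    unfold R ip
    exact Finset.sum_nonneg fun i _ => mul_nonneg (hρ i) (mul_self_nonneg _)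
  have Q0 : ∀ j, 0 ≤ Q ρ l j := fun j => by
    unfold Q ip
    refine Finset.sum_nonneg fun i _ => mul_nonneg (hρ i) ?_
    rw [Pi.mul_apply, mul_assoc]
    exact mul_nonneg (hl i).le (mul_self_nonneg _)
  have hQ : ∀ j < m, Q ρ l j ≠ 0 := fun j hj => by
    refine (Q_pos hρ hl (a := r ρ l j) ?_).ne'
    rw [rp (orth hρ hl j fun k hk => hlt k (by omega)).1]
    exact hlt j hj
  have lp : ∀ j < m, ∀ i, l i * p ρ l j i =
      Q ρ l j / R ρ l j * (r ρ l j i - r ρ l (j + 1) i) := fun j hj i => by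
    have := hQ j hj
    have := hlt j hj
    rw [r_succ]
    field_simp
    ring
  refine ⟨m, fun j => Nat.casesOn j 0 fun k => R ρ l (k + 1) / R ρ l k * (Q ρ l k / R ρ l k),
    fun j => Q ρ l j / R ρ l j, r ρ l, ?_, fun j => ?_, fun j => div_nonneg (Q0 j) (R0 j), rfl,
    fun _ => rfl, fun j h1 h2 => ?_, fun i => ?_, fun j hj i => ?_⟩
  · refine Nat.one_le_iff_ne_zero.2 fun c => h0.ne' ?_
    rw [c] at hm
    simpa [R, r, st, ip] using hm
  · rcases j with _ | j
    · exact le_rfl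
    · exact mul_nonneg (div_nonneg (R0 _) (R0 _)) (div_nonneg (Q0 _) (R0 _))
  · have := (orth hρ hl j fun k hk => hlt k (by omega)).1 0 h1
    simpa [ip, p, st] using this
  · unfold R ip at hm
    have := (Finset.sum_eq_zero_iff_of_nonneg
      fun i _ => mul_nonneg (hρ i) (mul_self_nonneg (r ρ l m i))).1 hm i (Finset.mem_univ _)
    rcases mul_eq_zero.1 this with c | c
    · rw [c, zero_mul]
    · rw [mul_self_eq_zero.1 c, mul_zero]
  · rcases j with _ | j
    · have := lp 0 hj i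
      simp only [Nat.rec_zero, zero_mul, zero_add]
      exact this
    · have a1 := lp (j + 1) hj i
      have a2 := lp j (by omega) i
      rw [p_succ] at a1
      simp only [Nat.add_sub_cancel]
      linear_combination a1 - R ρ l (j + 1) / R ρ l j * a2

end MP34a893.C
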