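import Pool.Agent.MP_34a893_an.C.Spec

/-! Completely monotone kernels: the dissipation bound. -/

open MeasureTheory Set Filter Topology

namespace MP34a893.C

namespace Dis

open E.Dis E.EntA2

theorem sgn_int {a k N : ℝ} (hk : 0 < k) (ha : a ∈ Icc 0 N) :
    ∫ z in (0 : ℝ)..N, Real.sign ((a - z) * k) = 2 * a - N := by
  have i := LF.intInt (f := fun z => Real.sign ((a - z) * k)) (sign_meas.comp (by fun_prop))
    fun z => sign_le _
  rw [← intervalIntegral.integral_add_adjacent_intervals (i 0 a) (i a N),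
    intervalIntegral.integral_congr_Ioo_of_le (g := fun _ => (1 : ℝ)) ha.1 fun z hz =>
      Real.sign_of_pos (mul_pos (sub_pos.2 hz.2) hk),
    intervalIntegral.integral_congr_Ioo_of_le (g := fun _ => (-1 : ℝ)) ha.2 fun z hz =>
      Real.sign_of_neg (mul_neg_of_neg_of_pos (sub_neg.2 hz.1) hk)]
  simp only [intervalIntegral.integral_const, smul_eq_mul]
  ring

variable {P : Par} {M : ℝ} {L : Lag P M}

theorem space (hP : P.Facts M) (hL : L.Facts) (hO : ∀ t x, osc L t x ∈ Icc 0 (P.N M)) (hE : St L)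
    (t : ℝ) {S x1 x2 : ℝ} (hS : 0 ≤ S) (h1 : x1 ≤ -S) (h2 : S ≤ x2) :
    (2 * P.k0)⁻¹ * ∫ x in (-S)..S, P.b (L.Z t x) * (P.k0 * L.u t x - L.G t x) ^ 2 ≤
      (∫ x in x1..x2, w L t x) + 2 * (P.N M * P.bm M * P.N M) := by
  have N0 := hP.N_pos.le
  have b0 := hP.bm_nonneg
  have k0 := hP.k0_pos
  have h12 : x1 ≤ x2 := by linarith
  have mZ : Measurable (L.Z t) := (Zc L).measurable.of_uncurry_left
  have mu : Measurable (L.u t) := L.u_meas.of_uncurry_left
  have mG : Measurable (L.G t) := (Gc L).measurable.of_uncurry_left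
  obtain ⟨a, ha⟩ : ∃ a : ℝ → ℝ, a = fun x => (P.k0 * L.u t x + L.G t x) / (2 * P.k0) := ⟨_, rfl⟩
  obtain ⟨c, hc⟩ : ∃ c : ℝ → ℝ, c = fun x => P.b (L.Z t x) * (L.G t x - P.k0 * L.u t x) := ⟨_, rfl⟩
  have ma : Measurable a := ha ▸ ((mu.const_mul _).add mG).div_const _
  have mc : Measurable c := hc ▸ (P.hb.measurable.comp mZ).mul (mG.sub (mu.const_mul _))
  have am : ∀ x, a x ∈ Icc 0 (P.N M) := fun x => by
    have := mul_nonneg k0.le (hL.u_nonneg t x)
    have := mul_le_mul_of_nonneg_left (L.u_le t x) k0.le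
    have := hL.G_mem t x
    rw [ha]
    exact ⟨div_nonneg (by linarith [this.1]) (by positivity),
      (div_le_iff₀ (by positivity)).2 (by linarith [this.2])⟩
  have cb : ∀ x, |c x| ≤ P.bm M * (P.k0 * P.N M) := fun x => by
    rw [hc]
    exact (abs_mul _ _).trans_le (mul_le_mul (b_abs hP hL t x) (al_abs hP hL t x) (abs_nonneg _) b0)
  have lip : ∀ z ∈ Icc 0 (P.N M), ∀ z' ∈ Icc 0 (P.N M), |P.Φ z - P.Φ z'| ≤ P.bm M * P.N M :=
    fun z hz z' hz' => (hP.Φ_lip z hz z' hz').trans (mul_le_mul_of_nonneg_left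
      (abs_le.2 ⟨by linarith [hz.1, hz'.2], by linarith [hz.2, hz'.1]⟩) b0)
  have mh : Measurable (Function.uncurry fun z x => Real.sign ((a x - z) * P.k0) * c x) :=
    (sign_meas.comp (((ma.comp measurable_snd).sub measurable_fst).mul_const _)).mul
      (mc.comp measurable_snd)
  have hb : ∀ z x, |Real.sign ((a x - z) * P.k0) * c x| ≤ P.bm M * (P.k0 * P.N M) := fun z x =>
    (abs_mul _ _).trans_le ((mul_le_mul (sign_le _) (cb x) (abs_nonneg _) zero_le_one).trans_eq
      (one_mul _))
  have a1 : ∫ x in x1..x2, (2 * a x - P.N M) * c x ≤ 3 * (P.N M * P.bm M * P.N M) := by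
    have e := swap mh hb N0 h12
    simp only [intervalIntegral.integral_mul_const, sgn_int k0 (am _)] at e
    have i : IntervalIntegrable (fun z => ∫ x in x1..x2, Real.sign ((a x - z) * P.k0) * c x)
        volume 0 (P.N M) := by
      simp only [intervalIntegral.integral_of_le h12]
      exact LF.intInt (C := P.bm M * (P.k0 * P.N M) * |x2 - x1|)
        mh.stronglyMeasurable.integral_prod_right.measurable (fun z => by
          rw [← intervalIntegral.integral_of_le h12]
          exact LF.abs_int_le (hb z)) _ _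
    rw [e]
    refine (intervalIntegral.integral_mono_on N0 i
      (intervalIntegrable_const (c := 3 * (P.bm M * P.N M))) fun z hz => ?_).trans_eq ?_
    · have s := hE (1 / 2) ⟨by norm_num, le_rfl⟩ z hz t x1 x2 h12
      have e2 : ∀ x, P.k0 * (L.u t x - z) + 1 / 2 * (L.G t x - P.k0 * L.u t x) =
          (a x - z) * P.k0 := fun x => by
        rw [ha]
        field_simp
        ring
      simp only [e2] at s
      have o := mul_le_mul_of_nonneg_left (hO t x2).2 b0
      have l := lip _ (hL.Z_mem t x2) z hz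
      rw [hc]
      refine s.trans ?_
      unfold osc at o
      unfold Lag.v
      linarith [abs_nonneg (P.Φ (L.Z t x1) - P.Φ z)]
    · rw [intervalIntegral.integral_const, smul_eq_mul]
      ring
  have a2 : ∫ x in x1..x2, c x ≤ P.bm M * P.N M := by
    have e := hL.v_sub t x1 x2
    have e2 : ∫ x in x1..x2, c x =
        -∫ x in x1..x2, P.b (L.Z t x) * (P.k0 * L.u t x - L.G t x) := by
      rw [← intervalIntegral.integral_neg, hc]
      congr 1
      funext x
      ring
    have l := abs_le.1 (lip _ (hL.Z_mem t x2) _ (hL.Z_mem t x1))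
    unfold Lag.v at e
    linarith [l.1]
  have i1 := LF.intInt (w_meas L).of_uncurry_left (w_abs hP hL t) x1 x2
  have i2 : IntervalIntegrable (fun x => (2 * a x - P.N M) * c x) volume x1 x2 :=
    LF.intInt (C := P.N M * (P.bm M * (P.k0 * P.N M))) (((ma.const_mul 2).sub_const _).mul mc)
      (fun x => (abs_mul _ _).trans_le (mul_le_mul (abs_le.2 ⟨by linarith [(am x).1],
        by linarith [(am x).2]⟩) (cb x) (abs_nonneg _) N0)) _ _
  have i3 := LF.intInt mc cb x1 x2
  have e2 : ∀ x, w L t x + (1 / 2 * ((2 * a x - P.N M) * c x) + P.N M / 2 * c x) =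
      (2 * P.k0)⁻¹ * (P.b (L.Z t x) * (P.k0 * L.u t x - L.G t x) ^ 2) := fun x => by
    rw [w, ha, hc]
    field_simp
    ring
  have i4 := (i2.const_mul (1 / 2)).add (i3.const_mul (P.N M / 2))
  have i5 := i1.add i4
  have e3 := intervalIntegral.integral_add i1 i4
  rw [intervalIntegral.integral_add (i2.const_mul _) (i3.const_mul _),
    intervalIntegral.integral_const_mul, intervalIntegral.integral_const_mul] at e3
  simp only [e2] at i5 e3
  have := intervalIntegral.integral_mono_interval h1 (neg_le_self hS) h2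
    (Eventually.of_forall fun x => mul_nonneg (by positivity)
      (mul_nonneg (P.hb0 _) (sq_nonneg _))) i5
  rw [intervalIntegral.integral_const_mul] at this
  nlinarith [mul_le_mul_of_nonneg_left a2 N0]

end Dis

open E.Dis in
theorem disS (hp : ParFactsS) (hl : LagFactsS) (hO : OscS) : DisS := by
  intro P M hM
  have hP := hp P M hM
  have N0 := hP.N_pos.le
  have b0 := hP.bm_nonneg
  have k0 : 0 < (2 * P.k0)⁻¹ := by have := hP.k0_pos; positivity
  have k1 := hP.k0_pos
  have p1 := sub_pos.2 P.hp1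
  have V0 : 0 ≤ P.Vm M := add_nonneg (abs_nonneg _) (mul_nonneg b0 N0)
  refine ⟨(P.N M * (2 + 4 * P.Vm M) / (1 - P.p) + 2 * (P.N M * P.bm M * P.N M)) / (2 * P.k0)⁻¹,
    by positivity, fun L S T' hE hS h0 hT => ?_⟩
  have hL := hl P M L hM
  have hX : ∀ y, ∀ t ∈ Icc 0 T', |L.X t y - y| ≤ P.Vm M * T' := fun y t ht => by
    have := hL.X_lip y t ⟨ht.1, ht.2.trans hT⟩ 0 ⟨le_rfl, L.hT⟩
    rw [L.X_zero, sub_zero, abs_of_nonneg ht.1] at this
    exact this.trans (mul_le_mul_of_nonneg_left ht.2 V0)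
  obtain ⟨a, ha⟩ : ∃ a, a = S + P.Vm M * T' := ⟨_, rfl⟩
  have a0 : -a ≤ a := neg_le_self (by rw [ha]; positivity)
  have mF : Measurable (Function.uncurry fun t y => w L t (L.X t y) * L.j t y) :=
    ((w_meas L).comp (measurable_fst.prodMk L.X_cont.measurable)).mul L.j_meas
  have iF : Integrable (Function.uncurry fun t y => w L t (L.X t y) * L.j t y)
      ((volume.restrict (Ioc 0 T')).prod (volume.restrict (Ioc (-a) a))) :=
    .of_bound mF.aestronglyMeasurable
      (P.N M * (P.bm M * (P.k0 * P.N M)) * Real.exp (P.C0 M * L.T)) (Eventually.of_forall fun z =>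
        (abs_mul _ _).trans_le (mul_le_mul (w_abs hP hL _ _) (j_abs hP hL _ _) (abs_nonneg _)
          (by positivity)))
  have iL : Integrable (fun t => ∫ y in Ioc (-a) a, w L t (L.X t y) * L.j t y)
      (volume.restrict (Ioc 0 T')) := iF.integral_prod_left
  have s1 : (1 - P.p) * ∫ t in Ioc 0 T', ∫ y in Ioc (-a) a, w L t (L.X t y) * L.j t y ≤
      P.N M * (2 * S + 4 * (P.Vm M * T')) := by
    have mu : Measurable (L.u T') := L.u_meas.of_uncurry_left
    have i1 : IntervalIntegrable (fun y => L.u T' (L.X T' y) * L.j T' y) volume (-a) a :=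
      LF.intInt (C := P.N M * Real.exp (P.C0 M * L.T)) ((mu.comp
        L.X_cont.measurable.of_uncurry_left).mul L.j_meas.of_uncurry_left) (fun y =>
        (abs_mul _ _).trans_le (mul_le_mul (u_abs hL _ _) (j_abs hP hL _ _) (abs_nonneg _) N0)) _ _
    rw [integral_integral_swap iF, ← integral_const_mul]
    refine (integral_mono (iF.integral_prod_right.const_mul _) i1.1 fun y => ?_).trans ?_
    · have := time hL y ⟨h0, hT⟩
      rw [intervalIntegral.integral_of_le h0] at this
      exact this.ge.trans (sub_le_self _ (mul_nonneg (hL.u_nonneg _ _) (L.j_pos _ _).le))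
    · rw [← intervalIntegral.integral_of_le a0, ← hL.cov_int T' _ mu ⟨_, u_abs hL T'⟩]
      refine (le_abs_self _).trans ((LF.abs_int_le (u_abs hL T')).trans
        (mul_le_mul_of_nonneg_left ?_ N0))
      have c1 := abs_le.1 (hX a T' ⟨h0, le_rfl⟩)
      have c2 := abs_le.1 (hX (-a) T' ⟨h0, le_rfl⟩)
      rw [abs_of_nonneg (sub_nonneg.2 ((hL.X_mono T').monotone a0))]
      linarith [c1.2, c2.1]
  have s2 : ∫ t in Ioc 0 T', (2 * P.k0)⁻¹ *
        ∫ x in (-S)..S, P.b (L.Z t x) * (P.k0 * L.u t x - L.G t x) ^ 2 ≤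
      ∫ t in Ioc 0 T', ((∫ y in Ioc (-a) a, w L t (L.X t y) * L.j t y) +
        2 * (P.N M * P.bm M * P.N M)) := by
    refine integral_mono_of_nonneg (Eventually.of_forall fun t => mul_nonneg k0.le
      (intervalIntegral.integral_nonneg (neg_le_self hS) fun x _ =>
        mul_nonneg (P.hb0 _) (sq_nonneg _))) (iL.add (integrable_const _)) ?_
    filter_upwards [ae_restrict_mem measurableSet_Ioc] with t ht
    have c1 := abs_le.1 (hX a t ⟨ht.1.le, ht.2⟩)
    have c2 := abs_le.1 (hX (-a) t ⟨ht.1.le, ht.2⟩)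
    rw [← intervalIntegral.integral_of_le a0,
      ← hL.cov_int t _ (w_meas L).of_uncurry_left ⟨_, w_abs hP hL t⟩]
    exact Dis.space hP hL (hO P M L hM).2.1 hE t hS (by linarith [c2.2]) (by linarith [c1.1])
  rw [integral_add iL (integrable_const _), integral_const_mul,
    ← intervalIntegral.integral_of_le h0, integral_const, measureReal_restrict_apply_univ,
    Real.volume_real_Ioc_of_le h0, sub_zero, smul_eq_mul] at s2
  rw [div_mul_eq_mul_div, le_div_iff₀' k0]
  refine s2.trans ?_
  rw [add_mul, div_mul_eq_mul_div]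
  refine add_le_add (((le_div_iff₀' p1).2 s1).trans (div_le_div_of_nonneg_right ?_ p1.le)) ?_
  · rw [mul_assoc]
    refine mul_le_mul_of_nonneg_left ?_ N0
    nlinarith [mul_nonneg V0 hS]
  · rw [mul_comm T']
    exact mul_le_mul_of_nonneg_left (by linarith) (by positivity)

end MP34a893.C
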