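import Pool.Agent.MP_34a893_an.C.Spec

/-! Completely monotone kernels: the approximate Kruzhkov inequalities. -/

open MeasureTheory Set Filter Topology

namespace MP34a893.C

open E E.EntB in
theorem entS (hP : ParFactsS) (hL : LagFactsS) (hA : E.EntAS) (hW : WeakS) (hO : OscS) :
    EntS := by
  intro P M L hM st κ hκ ζ z1 z2 z3 t1 t2 h1 h2 h3
  have F := hP P M hM
  have G := hL P M L hM
  obtain ⟨o1, o2, o3⟩ := hO P M L hM
  have i0 : Integrable ζ := z1.continuous.integrable_of_hasCompactSupport z2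
  have i1 : Integrable (deriv ζ) :=
    (z1.continuous_deriv le_rfl).integrable_of_hasCompactSupport z2.deriv
  have bq : BM fun z => L.q z.1 z.2 := .of G.q_meas fun z => G.q_mem z.1 z.2
  have bu : BM fun z => L.u z.1 z.2 := .of L.u_meas fun z => ⟨G.u_nonneg _ _, L.u_le _ _⟩
  have bv : BM fun z => L.v z.1 z.2 := .of G.v_cont.measurable fun z => G.v_mem z.1 z.2
  have bG : BM fun z => L.G z.1 z.2 := .of L.G_cont.measurable fun z => G.G_mem z.1 z.2
  have bo : BM fun z => osc L z.1 z.2 := .of o1 fun z => o2 z.1 z.2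
  have bb : BM fun z => P.b (L.Z z.1 z.2) :=
    .of (P.hb.comp L.Z_cont).measurable fun z => ⟨P.hb0 _, F.b_le _ (G.Z_mem z.1 z.2)⟩
  have bf : ∀ m : ℝ × ℝ → ℝ, Measurable m → (∀ z, m z ∈ Icc 0 M) → BM fun z => P.f (m z) :=
    fun m a b => ⟨F.f_meas.comp a, _, fun z => F.f_abs _ (b z)⟩
  have bF : BM fun z => Fk P.f (L.q z.1 z.2) κ :=
    (bf _ (bq.1.max measurable_const) fun z =>
      ⟨le_max_of_le_right hκ.1, max_le (G.q_mem _ _).2 hκ.2⟩).sub
    (bf _ (bq.1.min measurable_const) fun z =>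
      ⟨le_min (G.q_mem _ _).1 hκ.1, min_le_of_right_le hκ.2⟩)
  have bD := bG.sub ((BM.const P.k0).mul bu)
  have bα := bb.mul (((BM.const P.k0).mul bu).sub bG)
  have ba := (bv.sub (.const (P.Φ (κ ^ P.p)))).abs
  have bd := (BM.const (2 * P.bm M)).mul bo
  have bS := (BM.sign ((((BM.const P.k0).mul (bu.sub (.const (κ ^ P.p)))).1).add
    ((BM.const 0).mul bD).1)).mul (bb.mul bD)
  have b1 := ((BM.const (-κ)).mul (.sign (bq.1.sub_const κ))).mul bα
  have b2 := (bq.sub (.const κ)).abs.mul bv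
  have b3 := (BM.const (4 * M * P.bm M)).mul bo
  have hz : κ ^ P.p ∈ Icc 0 (P.N M) :=
    ⟨Real.rpow_nonneg hκ.1 _, Real.rpow_le_rpow hκ.1 hκ.2 P.hp0.le⟩
  rw [hA P M L hM κ ζ z1 z2 t1 t2 h1 h2 h3]
  refine add_le_add_right (intervalIntegral.integral_mono_on h2 (time b1 b2 i0 i1 _ _)
    (time bF b3 i1 i1.abs _ _) fun t _ => ?_) _
  obtain ⟨C1, c1⟩ := bS.2
  obtain ⟨C2, c2⟩ := ba.2
  obtain ⟨C3, c3⟩ := bd.2
  have d0 : ∀ x, 0 ≤ 2 * P.bm M * osc L t x := fun x =>
    mul_nonneg (mul_nonneg zero_le_two F.bm_nonneg) (o2 t x).1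
  have k := hW _ (fun x => |L.v t x - P.Φ (κ ^ P.p)|) (fun x => 2 * P.bm M * osc L t x) ζ
    (max C1 (max C2 C3)) (bS.1.comp measurable_prodMk_left)
    ((G.v_cont.uncurry_left t).sub continuous_const).abs (bd.1.comp measurable_prodMk_left)
    (fun x => (c1 (t, x)).trans (le_max_left _ _))
    (fun x => (c2 (t, x)).trans ((le_max_left _ _).trans (le_max_right _ _)))
    (fun x => ⟨d0 x, ((le_abs_self _).trans (c3 (t, x))).trans
      ((le_max_right _ _).trans (le_max_right _ _))⟩)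
    (fun x1 x2 hx => st 0 ⟨le_rfl, by norm_num⟩ _ hz t x1 x2 hx) z1 z2 z3
  have j1 := (bF.slice i1 t).add (b3.slice i1.abs t)
  have j2 := bS.slice i0 t
  have j3 := (ba.slice i1 t).neg.add (bd.slice i1.abs t)
  refine (integral_mono ((b1.slice i0 t).add (b2.slice i1 t)) (j1.add ((j2.sub j3).const_mul κ))
    fun x => ?_).trans ?_
  · have a1 := flux P F.Φ_anti (G.q_mem t x) hκ (L.v t x)
    have a2 := (le_abs_self _).trans ((abs_mul _ (deriv ζ x)).trans_le
      (mul_le_mul_of_nonneg_right a1 (abs_nonneg _)))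
    have a3 : Real.sign (P.k0 * (L.u t x - κ ^ P.p) + 0 * (L.G t x - P.k0 * L.u t x)) =
        Real.sign (L.q t x - κ) := by
      rw [zero_mul, add_zero, ← G.q_pow]
      exact sign_eq (fun c => mul_neg_of_pos_of_neg F.k0_pos
          (sub_neg.2 (Real.rpow_lt_rpow (G.q_mem t x).1 (sub_neg.1 c) P.hp0)))
        (fun c => by rw [sub_eq_zero.1 c, sub_self, mul_zero])
        fun c => mul_pos F.k0_pos (sub_pos.2 (Real.rpow_lt_rpow hκ.1 (sub_pos.1 c) P.hp0))
    have a4 : |L.v t x - P.Φ (L.u t x)| ≤ P.bm M * osc L t x :=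
      (F.Φ_lip _ (G.Z_mem t x) _ ⟨G.u_nonneg t x, L.u_le t x⟩).trans
        (mul_le_mul_of_nonneg_left (o3 t x) F.bm_nonneg)
    have a5 := mul_le_mul_of_nonneg_right (mul_le_mul_of_nonneg_left a4 hM.le)
      (abs_nonneg (deriv ζ x))
    have a6 := mul_le_mul_of_nonneg_right (mul_le_mul_of_nonneg_right hκ.2 (d0 x))
      (abs_nonneg (deriv ζ x))
    rw [G.q_pow] at a2
    simp only [Pi.add_apply, Pi.sub_apply, Pi.neg_apply, a3]
    linarith
  · refine (integral_add j1 ((j2.sub j3).const_mul κ)).trans_le (add_le_of_nonpos_right ?_)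
    exact (integral_const_mul _ _).trans_le (mul_nonpos_of_nonneg_of_nonpos hκ.1
      ((integral_sub j2 j3).trans_le (sub_nonpos.2 k)))

end MP34a893.C
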