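import Pool.Agent.MP_34a893_an.C.Spec

/-! The local oscillation is small on average. -/

open MeasureTheory Set Filter Topology

namespace MP34a893.C

theorem errS (pf : ParFactsS) (lf : LagFactsS) (hO : OscS) (hD : DisS) (hS : SloS) (hQ : QuaS) :
    ErrS := by
  intro P M hM hb hpos e he
  have F := pf P M hM
  obtain ⟨C, hC, hD⟩ := hD P M hM
  obtain ⟨A1, a1, hQ⟩ := hQ P M hM hpos (e / 4) (by positivity)
  obtain ⟨A2, a2, hS⟩ := hS P M hM hb hpos (e / (4 * (A1 + 1))) (by positivity)
  set A := A1 * (1 + A2) + 3 * (A1 * A2 * C) with hA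
  refine ⟨max 1 (2 * A / e), by positivity, fun L S T' hE hS0 hT hTS hTL => ?_⟩
  have G := lf P M L hM
  have O := hO P M L hM
  have hS1 : 1 ≤ S := (le_max_left _ _).trans hS0
  have hS2 : 2 * A ≤ S * e := (div_le_iff₀ he).1 ((le_max_right _ _).trans hS0)
  have hSS : -S ≤ S := by linarith
  have mD : Measurable fun p : ℝ × ℝ =>
      P.b (L.Z p.1 p.2) * (P.k0 * L.u p.1 p.2 - L.G p.1 p.2) ^ 2 :=
    (P.hb.measurable.comp L.Z_cont.measurable).mul
      (((L.u_meas.const_mul _).sub L.G_cont.measurable).pow_const 2)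
  have bD : ∀ t x, |P.b (L.Z t x) * (P.k0 * L.u t x - L.G t x) ^ 2| ≤
      P.bm M * (P.k0 * P.N M) ^ 2 := fun t x => by
    rw [abs_mul, abs_pow, abs_sub_comm]
    exact mul_le_mul (E.Dis.b_abs F G t x) (pow_le_pow_left₀ (abs_nonneg _) (E.Dis.al_abs F G t x) 2)
      (by positivity) F.bm_nonneg
  set D : ℝ → ℝ := fun t => ∫ x in (-S)..S, P.b (L.Z t x) * (P.k0 * L.u t x - L.G t x) ^ 2 with hDd
  have k2 : ∀ t, ∫ x in (-S)..S, osc L t x ≤ (e / 2 * S + A1 * (1 + A2)) + A1 * A2 * D t := by
    intro t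
    have h1 := hQ L t S (by linarith)
    have h2 := mul_le_mul_of_nonneg_left (hS L t S (by linarith)) a1
    have h3 : A1 * (e / (4 * (A1 + 1)) * S) ≤ e / 4 * S := by
      rw [← mul_assoc]
      refine mul_le_mul_of_nonneg_right ?_ (by linarith)
      rw [← mul_div_assoc, div_le_div_iff₀ (by positivity) (by positivity)]
      nlinarith
    simp only [hDd]
    linarith
  have iD : IntervalIntegrable D volume 0 T' := by
    refine LF.intInt (C := P.bm M * (P.k0 * P.N M) ^ 2 * |S - -S|) ?_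
      (fun t => LF.abs_int_le (bD t)) _ _
    simp only [hDd, intervalIntegral.integral_of_le hSS]
    exact (mD.stronglyMeasurable.integral_prod_right' (ν := volume.restrict (Ioc (-S) S))).measurable
  have i4 : IntervalIntegrable (fun _ : ℝ => e / 2 * S + A1 * (1 + A2)) volume 0 T' :=
    intervalIntegrable_const
  refine (E.Err.mono hT (fun t => intervalIntegral.integral_nonneg hSS fun x _ => (O.2.1 t x).1)
    (i4.add (iD.const_mul _)) k2).trans ?_
  rw [intervalIntegral.integral_add i4 (iD.const_mul _), intervalIntegral.integral_const_mul,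
    intervalIntegral.integral_const, smul_eq_mul, sub_zero]
  have h1 : ∫ t in (0 : ℝ)..T', D t ≤ C * (3 * S) :=
    (hD L S T' hE (by linarith) hT hTL).trans (mul_le_mul_of_nonneg_left (by linarith) hC)
  calc _ ≤ S * (e / 2 * S + A1 * (1 + A2)) + A1 * A2 * (C * (3 * S)) := by gcongr
    _ = S * A + e / 2 * S ^ 2 := by rw [hA]; ring
    _ ≤ _ := by nlinarith [mul_le_mul_of_nonneg_left hS2 (zero_le_one.trans hS1), sq_nonneg S]

end MP34a893.C
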