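import Pool.Agent.MP_34a893_an.C.Tv

/-! The static inequality for finite mixtures. -/

open MeasureTheory Set Filter Topology

namespace MP34a893.C

namespace FinM

variable {f : ℝ → ℝ} {C l : ℝ}

noncomputable def Y (l : ℝ) (f : ℝ → ℝ) (x : ℝ) : ℝ :=
  ∫ s in Ioi (0 : ℝ), Real.exp (-(l * s)) * f (x + s)

theorem ie (hl : 0 < l) (a : ℝ) : IntegrableOn (fun s => Real.exp (-(l * s))) (Ioi a) := by
  simpa using integrableOn_exp_mul_Ioi (neg_neg_of_pos hl) a

theorem im {κ : ℝ → ℝ} (hκ : IntegrableOn κ (Ioi 0)) (hf : Measurable f) (hC : ∀ x, |f x| ≤ C)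
    (x : ℝ) : IntegrableOn (fun s => κ s * f (x + s)) (Ioi 0) :=
  Integrable.mul_bdd (c := C) hκ (hf.comp (measurable_const_add x)).aestronglyMeasurable
    (ae_of_all _ fun _ => hC _)

theorem Y_eq (x : ℝ) : Y l f x = Real.exp (l * x) * ∫ y in Ioi x, Real.exp (-(l * y)) * f y := by
  have := (measurePreserving_add_right volume x).setIntegral_preimage_emb
    (measurableEmbedding_addRight x) (fun y => Real.exp (-(l * y)) * f y) (Ioi x)
  rw [preimage_add_const_Ioi, sub_self] at this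
  rw [← this, ← integral_const_mul, Y]
  refine integral_congr_ae (.of_forall fun s => ?_)
  simp only
  rw [← mul_assoc, ← Real.exp_add, add_comm s x]
  congr 2
  ring

theorem reg (hl : 0 < l) (hf : Measurable f) (hC : ∀ x, |f x| ≤ C) (x1 x2 : ℝ) :
    (∃ K, LipschitzOnWith K (Y l f) (Icc x1 x2)) ∧
      ∀ᵐ x, x ∈ Ioo x1 x2 → HasDerivAt (Y l f) (l * Y l f x - f x) x := by
  set h : ℝ → ℝ := fun y => -(Real.exp (-(l * max y x1)) * f y) with hh
  have hm : Measurable h := by
    simp only [hh]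
    fun_prop
  have hb : ∀ y, |h y| ≤ Real.exp (-(l * x1)) * C := fun y => by
    rw [hh, abs_neg, abs_mul, abs_of_pos (Real.exp_pos _)]
    gcongr
    exacts [le_max_right _ _, hC y]
  have hi := LF.intInt hm hb
  set I : ℝ → ℝ := fun x => (∫ y in Ioi x1, Real.exp (-(l * y)) * f y) + ∫ y in x1..x, h y with hI
  have hs : ∀ a b, I b - I a = ∫ y in a..b, h y := fun a b => by
    simp only [hI]
    rw [add_sub_add_left_eq_sub, intervalIntegral.integral_interval_sub_left (hi _ _) (hi _ _)]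
  have e : ∀ x, x1 ≤ x → Y l f x = Real.exp (l * x) * I x := fun x hx => by
    rw [Y_eq]
    congr 1
    have i1 : ∀ a, IntegrableOn (fun y => Real.exp (-(l * y)) * f y) (Ioi a) := fun a =>
      Integrable.mul_bdd (c := C) (ie hl a) hf.aestronglyMeasurable (ae_of_all _ hC)
    have := intervalIntegral.integral_Ioi_sub_Ioi (i1 x1) hx
    have e2 : ∫ y in x1..x, h y = -∫ y in x1..x, Real.exp (-(l * y)) * f y := by
      rw [← intervalIntegral.integral_neg]
      refine intervalIntegral.integral_congr fun y hy => ?_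
      rw [uIcc_of_le hx] at hy
      simp only [hh, max_eq_left hy.1]
    simp only [hI]
    linarith
  have lI := E.Calc.lip hb hs
  constructor
  · have c1 : ContDiff ℝ 1 fun z : ℝ × ℝ => Real.exp (l * z.1) * z.2 := by fun_prop
    obtain ⟨R, hR⟩ := (isCompact_Icc (a := x1) (b := x2)).exists_bound_of_continuousOn
      lI.continuous.continuousOn
    obtain ⟨K, hK⟩ := (c1.contDiffOn (s := Icc x1 x2 ×ˢ Icc (-R) R)).exists_lipschitzOnWith
      one_ne_zero ((convex_Icc _ _).prod (convex_Icc _ _)) (isCompact_Icc.prod isCompact_Icc)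
    have l2 := hK.comp ((LipschitzWith.id.prodMk lI).lipschitzOnWith (s := Icc x1 x2))
      fun x hx => ⟨hx, abs_le.1 (hR x hx)⟩
    exact ⟨_, LipschitzOnWith.of_dist_le_mul fun a ha b hb => by
      rw [e a ha.1, e b hb.1]
      exact l2.dist_le_mul a ha b hb⟩
  · filter_upwards [E.Calc.ae_deriv hm hb hs] with x hx hx'
    have d1 : HasDerivAt (fun x => Real.exp (l * x)) (Real.exp (l * x) * l) x := by
      simpa using ((hasDerivAt_id x).const_mul l).exp
    refine ((d1.mul hx).congr_of_eventuallyEq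
      ((eventually_ge_nhds hx'.1).mono fun y hy => e y hy)).congr_deriv ?_
    rw [e x hx'.1.le]
    simp only [hh, max_eq_left hx'.1.le, Real.exp_neg]
    field_simp
    ring

theorem mk_int {n : ℕ} (ρ : Fin n → ℝ) {l : Fin n → ℝ} (hl : ∀ i, 0 < l i) :
    IntegrableOn (mk ρ l) (Ioi 0) :=
  integrable_finsetSum _ fun i _ => (ie (hl i) 0).const_mul _

theorem av_mk {n : ℕ} (ρ : Fin n → ℝ) {l : Fin n → ℝ} (hl : ∀ i, 0 < l i) (hf : Measurable f)
    (hC : ∀ x, |f x| ≤ C) (x : ℝ) : av (mk ρ l) f x = ∑ i, ρ i * Y (l i) f x := by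
  simp only [av, mk, Finset.sum_mul, mul_assoc]
  rw [integral_finsetSum _ fun i _ => (im (ie (hl i) 0) hf hC x).const_mul _]
  simp only [integral_const_mul, Y]

theorem av_meas {κ : ℝ → ℝ} (hκ : Measurable κ) (hf : Measurable f) : Measurable (av κ f) :=
  Vel.conv_meas hκ hf

theorem av_abs {κ : ℝ → ℝ} (hκ : IntegrableOn κ (Ioi 0)) (hC : ∀ x, |f x| ≤ C) (x : ℝ) :
    |av κ f x| ≤ (∫ s in Ioi (0 : ℝ), |κ s|) * C := by
  rw [← integral_mul_const, ← Real.norm_eq_abs, av]
  refine norm_integral_le_of_norm_le (hκ.abs.mul_const C) (.of_forall fun s => ?_)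
  rw [Real.norm_eq_abs, abs_mul]
  exact mul_le_mul_of_nonneg_left (hC _) (abs_nonneg _)

theorem part {φ b : ℝ → ℝ} {B : ℝ} (h : Prof φ b B) {x y e : ℝ} (he : 0 ≤ e) (hxy : y - x ≤ e) :
    |φ x - φ y| ≤ φ x - φ y + 2 * B * e := by
  have B0 : 0 ≤ B := (h.mem 0).1.trans (h.mem 0).2
  rcases le_total y x with c | c
  · rw [abs_of_nonneg (sub_nonneg.2 (Tv.mono h c))]
    nlinarith [mul_nonneg B0 he]
  · have := (Tv.lip h).dist_le_mul y x
    rw [Real.dist_eq, Real.dist_eq, abs_of_nonneg (sub_nonneg.2 (Tv.mono h c)),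
      abs_of_nonneg (sub_nonneg.2 c)] at this
    rw [abs_of_nonpos (sub_nonpos.2 (Tv.mono h c))]
    have : φ y - φ x ≤ B * e := this.trans (mul_le_mul_of_nonneg_left hxy B0)
    linarith

theorem sign_bdd (r : ℝ) : |Real.sign r| ≤ 1 := E.EntA2.sign_le r

end FinM

open FinM in
theorem finS (hG : CgS) (hT : TvS) (hM : MonS) : FinS := by
  intro n ρ l hρ hl h0 f φ b C B hf hC hφ c x1 x2 hx
  obtain ⟨m, α, β, r, hm, hα, hβ, a0, r0, hz, hrm, he⟩ := hG n ρ l hρ hl h0
  have mon := hM n m ρ l α β r hm hρ hα hβ a0 r0 hz hrm he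
  set κ : ℕ → ℝ → ℝ := fun j => mk (fun i => ρ i * r j i) l with hκ
  set ω : ℕ → ℝ → ℝ := fun j => av (κ j) f with hω
  have ωe : ∀ j x, ω j x = ∑ i, ρ i * r j i * Y (l i) f x := fun j x => av_mk _ hl hf hC x
  set ω' : ℕ → ℝ → ℝ := fun j x => ∑ i, ρ i * r j i * (l i * Y (l i) f x - f x) with hω'
  have κ0 : κ 0 = mk ρ l := by simp [hκ, r0]
  have κm : ∀ s, κ m s = 0 := fun s => by simp [hκ, mk, hrm]
  have zm : ∀ x, ω m x = 0 := fun x => by simp [hω, av, κm]
  have eq : ∀ x j, j < m → ω' j x = α j * (ω j x - ω (j - 1) x) + β j * (ω j x - ω (j + 1) x) -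
      (∑ i, ρ i * r j i) * f x := fun x j hj => by
    simp only [ωe, hω', ← Finset.sum_sub_distrib, Finset.mul_sum, ← Finset.sum_add_distrib,
      Finset.sum_mul]
    refine Finset.sum_congr rfl fun i _ => ?_
    linear_combination ρ i * Y (l i) f x * he j hj i
  have ge : ∀ x, av (mg ρ l) f x = ∑ i, ρ i * l i * Y (l i) f x := fun x =>
    av_mk (fun i => ρ i * l i) hl hf hC x
  have e0 : ∀ x, ω' 0 x = av (mg ρ l) f x - (∑ i, ρ i) * f x := fun x => by
    simp only [ge, hω', r0, Finset.sum_mul, ← Finset.sum_sub_distrib]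
    exact Finset.sum_congr rfl fun i _ => by ring
  have e1 : ∀ x, av (mg ρ l) f x = β 0 * (ω 0 x - ω 1 x) := fun x => by
    have := eq x 0 hm
    simp only [e0, a0, r0, mul_one, zero_mul, zero_add] at this
    linarith
  have β0 : 0 < β 0 := by
    obtain ⟨i, -, -⟩ := Finset.exists_ne_zero_of_sum_ne_zero h0.ne'
    refine (hβ 0).lt_of_ne' fun c => (hl i).ne' ?_
    simpa [a0, c, r0] using he 0 hm i
  choose K hK using fun i => (reg (hl i) hf hC x1 x2).1
  have lip : ∀ j, ∃ K, LipschitzOnWith K (ω j) (Icc x1 x2) := fun j => by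
    refine ⟨⟨∑ i, |ρ i * r j i| * K i, by positivity⟩,
      LipschitzOnWith.of_dist_le_mul fun x hx y hy => ?_⟩
    rw [Real.dist_eq, ωe, ωe, ← Finset.sum_sub_distrib]
    refine (Finset.abs_sum_le_sum_abs _ _).trans ?_
    change _ ≤ (∑ i, |ρ i * r j i| * K i) * _
    rw [Finset.sum_mul]
    refine Finset.sum_le_sum fun i _ => ?_
    rw [← mul_sub, abs_mul, mul_assoc]
    exact mul_le_mul_of_nonneg_left ((hK i).dist_le_mul x hx y hy) (abs_nonneg _)
  choose K' hK' using lip
  have mκ : ∀ ρ' : Fin n → ℝ, Measurable (mk ρ' l) := fun ρ' => by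
    unfold mk
    fun_prop
  have mgm : Measurable (av (mg ρ l) f) := av_meas (mκ fun i => ρ i * l i) hf
  have gb := av_abs (mk_int (fun i => ρ i * l i) hl) hC
  have B0 : 0 ≤ B := (hφ.mem 0).1.trans (hφ.mem 0).2
  have k := hT m α β ω ω' φ b (fun x => Real.sign ((∑ i, ρ i) * f x +
      1 * (av (mg ρ l) f x - (∑ i, ρ i) * f x)) *
      (b (av (mk ρ l) f x) * (av (mg ρ l) f x - (∑ i, ρ i) * f x))) B x1 x2
    ((Finset.range (m + 1)).sup K') hm hα hβ hφ hx
    (fun j hj => (hK' j).weaken (Finset.le_sup (f := K') (Finset.mem_range.2 (by omega))))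
    (by
      filter_upwards [ae_all_iff.2 fun i => (reg (hl i) hf hC x1 x2).2] with x h hx j _
      rw [show ω j = _ from funext (ωe j)]
      exact HasDerivAt.fun_sum fun i _ => (h i hx).const_mul _)
    zm (fun x _ j h1 hj => by rw [eq x j hj, hz j h1 hj.le, zero_mul, sub_zero])
    (LF.intInt (C := 1 * (B * ((∫ s in Ioi (0 : ℝ), |mg ρ l s|) * C + (∑ i, ρ i) * C)))
      ((E.EntA2.sign_meas.comp ((hf.const_mul _).add ((mgm.sub (hf.const_mul _)).const_mul _))).mul
        ((hφ.cont.measurable.comp (av_meas (mκ ρ) hf)).mul (mgm.sub (hf.const_mul _))))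
      (fun x => by
        simp only [Pi.mul_apply, Function.comp, Pi.sub_apply, Pi.add_apply]
        rw [abs_mul, abs_mul, abs_of_nonneg (hφ.mem _).1]
        refine mul_le_mul (sign_bdd _) (mul_le_mul (hφ.mem _).2 ((abs_sub _ _).trans
          (add_le_add (gb x) ?_)) (abs_nonneg _) B0) (mul_nonneg (hφ.mem _).1 (abs_nonneg _))
          zero_le_one
        rw [abs_mul, abs_of_pos h0]
        exact mul_le_mul_of_nonneg_left (hC x) h0.le) _ _)
    fun x _ => by
      rw [one_mul, add_sub_cancel, e0, ← κ0, e1, mul_comm (β 0), E.EntA2.sign_mul β0]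
  refine k.trans ?_
  have tel : ∀ x, ∑ j ∈ Finset.range m, (φ (ω j x) - φ (ω (j + 1) x)) =
      φ (av (mk ρ l) f x) - φ 0 := fun x => by
    rw [Finset.sum_range_sub' (fun j => φ (ω j x)), zm, ← κ0]
  have lo : |φ (av (mk ρ l) f x1) - φ 0| ≤ tv m φ ω x1 := by
    rw [← tel]
    exact Finset.abs_sum_le_sum_abs _ _
  set d : ℕ → ℝ := fun j => os (fun s => κ j s - κ (j + 1) s) f c x2 with hd
  have iδ : ∀ j, IntegrableOn (fun s => κ j s - κ (j + 1) s) (Ioi 0) := fun j =>
    (mk_int _ hl).sub (mk_int _ hl)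
  have hC' : ∀ x, |(|f x - c|)| ≤ C + |c| := fun x => by
    rw [abs_abs]
    exact (abs_sub _ _).trans (add_le_add (hC x) le_rfl)
  have iδ' : ∀ j, IntegrableOn (fun s => (κ j s - κ (j + 1) s) * |f (x2 + s) - c|) (Ioi 0) :=
    fun j => im (f := fun x => |f x - c|) (iδ j) (hf.sub_const c).abs hC' x2
  have sd : ∑ j ∈ Finset.range m, d j = os (mk ρ l) f c x2 := by
    simp only [hd, os]
    rw [← integral_finsetSum _ fun j _ => iδ' j]
    refine integral_congr_ae (.of_forall fun s => ?_)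
    simp only
    rw [← Finset.sum_mul, Finset.sum_range_sub' (fun j => κ j s), κm, sub_zero, κ0]
  have d0 : ∀ j < m, 0 ≤ d j := fun j hj => setIntegral_nonneg measurableSet_Ioi fun s hs =>
    mul_nonneg (sub_nonneg.2 (mon s (le_of_lt hs) j hj)) (abs_nonneg _)
  have dif : ∀ j, ω j x2 - ω (j + 1) x2 =
      ∫ s in Ioi (0 : ℝ), (κ j s - κ (j + 1) s) * f (x2 + s) := fun j => by
    simp only [hω, av, sub_mul]
    exact (integral_sub (im (mk_int _ hl) hf hC x2) (im (mk_int _ hl) hf hC x2)).symm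
  have up : tv m φ ω x2 ≤ |φ (av (mk ρ l) f x2) - φ 0| + 2 * B * os (mk ρ l) f c x2 := by
    rw [← sd, Finset.mul_sum]
    rcases le_total 0 c with hc | hc
    · refine le_trans ?_ (add_le_add (le_abs_self _) le_rfl)
      rw [← tel, ← Finset.sum_add_distrib]
      refine Finset.sum_le_sum fun j hj => ?_
      have hj := Finset.mem_range.1 hj
      refine part hφ (d0 j hj) ?_
      rw [← neg_sub, dif, ← integral_neg]
      refine setIntegral_mono_on (im (iδ j) hf hC x2).neg (iδ' j) measurableSet_Ioi fun s hs => ?_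
      rw [← mul_neg]
      refine mul_le_mul_of_nonneg_left ?_ (sub_nonneg.2 (mon s (le_of_lt hs) j hj))
      linarith [neg_abs_le (f (x2 + s) - c)]
    · refine le_trans ?_ (add_le_add (neg_le_abs _) le_rfl)
      rw [← tel, ← Finset.sum_neg_distrib, ← Finset.sum_add_distrib]
      refine Finset.sum_le_sum fun j hj => ?_
      have hj := Finset.mem_range.1 hj
      rw [abs_sub_comm, neg_sub]
      refine part hφ (d0 j hj) ?_
      rw [dif]
      refine setIntegral_mono_on (im (iδ j) hf hC x2) (iδ' j) measurableSet_Ioi fun s hs => ?_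
      refine mul_le_mul_of_nonneg_left ?_ (sub_nonneg.2 (mon s (le_of_lt hs) j hj))
      linarith [le_abs_self (f (x2 + s) - c)]
  linarith

end MP34a893.C
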