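import Pool.Agent.MP_34a893_an.C.Spec
import Mathlib.MeasureTheory.Integral.ExpDecay

/-! Completely monotone kernels, row LIM: the static inequality survives limits of kernels. -/

open MeasureTheory Set Filter Topology

namespace MP34a893.C

namespace Lim

theorem sign_mono {a b : ℝ} (h : a ≤ b) : Real.sign a ≤ Real.sign b := by
  unfold Real.sign
  split_ifs <;> linarith

theorem sign_abs (r : ℝ) : |Real.sign r| ≤ 1 := by
  rcases Real.sign_apply_eq r with h | h | h <;> simp [h]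

theorem sel {y D D1 θ e : ℝ} (h1 : θ ≤ 1 / 2) (h : |D - D1| ≤ e) :
    Real.sign (y + θ * D) * D ≤ Real.sign (y + 1 * D1) * D1 + 5 * e := by
  obtain ⟨a1, a2⟩ := abs_le.1 (sign_abs (y + θ * D))
  obtain ⟨b1, b2⟩ := abs_le.1 (sign_abs (y + 1 * D1))
  obtain ⟨c1, c2⟩ := abs_le.1 h
  have he : 0 ≤ e := (abs_nonneg _).trans h
  rcases le_or_gt (2 * e) D with k | k
  · have := sign_mono (a := y + θ * D) (b := y + 1 * D1) (by nlinarith)
    nlinarith
  rcases le_or_gt D (-(2 * e)) with k' | k'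
  · have := sign_mono (a := y + 1 * D1) (b := y + θ * D) (by nlinarith)
    nlinarith
  · nlinarith

theorem int_mul {k w : ℝ → ℝ} {C : ℝ} (hk : IntegrableOn k (Ioi 0)) (hw : Measurable w)
    (h : ∀ x, |w x| ≤ C) : IntegrableOn (fun s => k s * w s) (Ioi 0) :=
  Integrable.mul_bdd hk hw.aestronglyMeasurable (Eventually.of_forall h)

theorem bd {k w : ℝ → ℝ} {C : ℝ} (hk : IntegrableOn k (Ioi 0)) (h : ∀ x, |w x| ≤ C) :
    |∫ s in Ioi (0 : ℝ), k s * w s| ≤ (∫ s in Ioi (0 : ℝ), |k s|) * C := by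
  rw [← integral_mul_const]
  refine norm_integral_le_of_norm_le (f := fun s => k s * w s) (hk.abs.mul_const C)
    (Eventually.of_forall fun s => ?_)
  rw [Real.norm_eq_abs, abs_mul]
  exact mul_le_mul_of_nonneg_left (h s) (abs_nonneg _)

theorem dif {k k' w : ℝ → ℝ} {C ε : ℝ} (hk : IntegrableOn k (Ioi 0))
    (hk' : IntegrableOn k' (Ioi 0)) (hw : Measurable w) (h : ∀ x, |w x| ≤ C)
    (e : ∫ s in Ioi (0 : ℝ), |k s - k' s| ≤ ε) :
    |(∫ s in Ioi (0 : ℝ), k s * w s) - ∫ s in Ioi (0 : ℝ), k' s * w s| ≤ ε * C := by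
  rw [← integral_sub (int_mul hk hw h) (int_mul hk' hw h)]
  simp only [← sub_mul]
  exact (bd (hk.sub hk') h).trans
    (mul_le_mul_of_nonneg_right e ((abs_nonneg _).trans (h 0)))

theorem av_meas {k f : ℝ → ℝ} (hk : Measurable k) (hf : Measurable f) : Measurable (av k f) :=
  (StronglyMeasurable.integral_prod_right (f := fun x s => k s * f (x + s))
    (Measurable.stronglyMeasurable (by fun_prop))).measurable

theorem mk_int {n : ℕ} (ρ : Fin n → ℝ) {l : Fin n → ℝ} (hl : ∀ i, 0 < l i) :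
    IntegrableOn (mk ρ l) (Ioi 0) :=
  integrable_finsetSum _ fun i _ => by
    simpa using (exp_neg_integrableOn_Ioi 0 (hl i)).const_mul (ρ i)

theorem mk_meas {n : ℕ} (ρ l : Fin n → ℝ) : Measurable (mk ρ l) := by
  unfold mk
  fun_prop

theorem lip {φ β : ℝ → ℝ} {B : ℝ} (h : Prof φ β B) (a b : ℝ) : |φ a - φ b| ≤ B * |a - b| :=
  Convex.norm_image_sub_le_of_norm_hasDerivWithin_le (𝕜 := ℝ) (s := univ)
    (fun z _ => (h.der z).hasDerivWithinAt)
    (fun z _ => (abs_of_nonneg (h.mem z).1).trans_le (h.mem z).2) convex_univ (mem_univ _)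
    (mem_univ _)

theorem ii {S b D : ℝ → ℝ} {B E : ℝ} (hS : Measurable S) (hb : Measurable b) (hD : Measurable D)
    (h1 : ∀ x, b x ∈ Icc 0 B) (h2 : ∀ x, |D x| ≤ E) (x1 x2 : ℝ) :
    IntervalIntegrable (fun x => Real.sign (S x) * (b x * D x)) volume x1 x2 := by
  have ms : Measurable Real.sign :=
    Measurable.ite measurableSet_Iio measurable_const
      (Measurable.ite measurableSet_Ioi measurable_const measurable_const)
  refine (intervalIntegrable_const (c := 1 * (B * E))).mono_fun'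
    ((ms.comp hS).mul (hb.mul hD)).aestronglyMeasurable (Eventually.of_forall fun x => ?_)
  show |Real.sign (S x) * (b x * D x)| ≤ 1 * (B * E)
  rw [abs_mul, abs_mul, abs_of_nonneg (h1 x).1]
  have := (h1 x).1
  have := this.trans (h1 x).2
  gcongr
  exacts [sign_abs _, (h1 x).2, h2 x]

end Lim

open Lim in
theorem limS (hP : ParFactsS) (hF : FinS) : LimS := by
  intro P hA θ hθ f φ β C B hf hC hφ c x1 x2 hx
  have F := hP P 1 one_pos
  have C0 : 0 ≤ C := (abs_nonneg _).trans (hC 0)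
  have B0 : 0 ≤ B := (hφ.mem 0).1.trans (hφ.mem 0).2
  have k0 := F.k0_pos
  have gi : IntegrableOn P.g (Ioi 0) := P.hgi.integrableOn
  have sh : ∀ x, Measurable fun s => f (x + s) := fun x => by fun_prop
  have bk : ∀ x, |av P.k f x| ≤ C := fun x => by
    have := bd F.k_int fun s => hC (x + s)
    simpa only [abs_of_nonneg (F.k_nonneg _), F.k_one, one_mul, av] using this
  have bg : ∀ x, |av P.g f x - P.k0 * f x| ≤ 2 * P.k0 * C := fun x => by
    have := bd gi fun s => hC (x + s)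
    simp only [abs_of_nonneg (P.hg0 _), F.g_int] at this
    have h2 : |P.k0 * f x| ≤ P.k0 * C := by
      rw [abs_mul, abs_of_pos k0]
      exact mul_le_mul_of_nonneg_left (hC x) k0.le
    exact (abs_sub _ _).trans (by unfold av; linarith)
  have uc := Metric.uniformContinuousOn_iff_le.1
    ((isCompact_Icc (a := -(2 * C)) (b := 2 * C)).uniformContinuousOn_of_continuous
      hφ.cont.continuousOn)
  obtain ⟨Q, hQ⟩ : ∃ Q, Q = (x2 - x1) * (2 * P.k0 * C + C + 5 * C * B) + 2 * B * C +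
    2 * B * (C + |c|) := ⟨_, rfl⟩
  have Q0 : 0 ≤ Q := by
    have := sub_nonneg.2 hx
    rw [hQ]
    positivity
  refine le_of_forall_pos_le_add fun η hη => ?_
  obtain ⟨δ, δ0, hδ⟩ : ∃ δ, 0 < δ ∧ δ * Q ≤ η := ⟨η / (Q + 1), by positivity, by
    rw [div_mul_eq_mul_div, div_le_iff₀ (by positivity)]
    nlinarith⟩
  obtain ⟨r, r0, hr⟩ := uc δ δ0
  obtain ⟨ε, ε0, ε1, ε2, ε3⟩ : ∃ ε, 0 < ε ∧ ε ≤ 1 ∧ ε ≤ δ ∧ ε * C ≤ r := by
    refine ⟨min (min 1 δ) (r / (C + 1)), by positivity, (min_le_left _ _).trans (min_le_left _ _),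
      (min_le_left _ _).trans (min_le_right _ _), ?_⟩
    have := (le_div_iff₀ (by positivity)).1 (min_le_right (min 1 δ) (r / (C + 1)))
    have : 0 < min (min 1 δ) (r / (C + 1)) := by positivity
    nlinarith
  obtain ⟨n, ρ, l, ρ0, l0, hs, eg, ek⟩ := hA ε ε0
  have S := hF n ρ l ρ0 l0 (hs ▸ k0) f φ β C B hf hC hφ c x1 x2 hx
  rw [hs] at S
  have ki := mk_int ρ l0
  have gi' : IntegrableOn (mg ρ l) (Ioi 0) := mk_int (fun i => ρ i * l i) l0
  have gm : Measurable (mg ρ l) := mk_meas (fun i => ρ i * l i) l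
  have dk : ∀ x, |av P.k f x - av (mk ρ l) f x| ≤ ε * C := fun x =>
    dif F.k_int ki (sh x) (fun s => hC _) ek
  have dg : ∀ x, |av P.g f x - P.k0 * f x - (av (mg ρ l) f x - P.k0 * f x)| ≤ ε * C := fun x => by
    rw [sub_sub_sub_cancel_right]
    exact dif gi gi' (sh x) (fun s => hC _) eg
  have εC : ε * C ≤ C := mul_le_of_le_one_left C0 ε1
  have εδ : ε * C ≤ δ * C := mul_le_mul_of_nonneg_right ε2 C0
  have bg' : ∀ x, |av (mg ρ l) f x - P.k0 * f x| ≤ 2 * P.k0 * C + C := fun x => by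
    have a := abs_le.1 (dg x)
    have b := abs_le.1 (bg x)
    exact abs_le.2 ⟨by linarith, by linarith⟩
  have db : ∀ x, |β (av P.k f x) - β (av (mk ρ l) f x)| ≤ δ := fun x => by
    have a := abs_le.1 (dk x)
    have b := abs_le.1 (bk x)
    exact hr _ ⟨by linarith, by linarith⟩ _ ⟨by linarith, by linarith⟩ ((dk x).trans ε3)
  have dos : |os P.k f c x2 - os (mk ρ l) f c x2| ≤ ε * (C + |c|) :=
    dif F.k_int ki (w := fun s => |f (x2 + s) - c|) (by fun_prop)
      (fun s => by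
        rw [abs_abs]
        exact (abs_sub _ _).trans (add_le_add (hC _) le_rfl)) ek
  have dφ : ∀ x, |(|φ (av P.k f x) - φ 0|) - (|φ (av (mk ρ l) f x) - φ 0|)| ≤ B * (δ * C) :=
    fun x => by
      refine (abs_abs_sub_abs_le_abs_sub _ _).trans ?_
      rw [sub_sub_sub_cancel_right]
      exact (lip hφ _ _).trans (mul_le_mul_of_nonneg_left ((dk x).trans εδ) B0)
  have m1 := av_meas F.k_cont.measurable hf
  have m2 := av_meas P.hg hf
  have m3 := av_meas (mk_meas ρ l) hf
  have m4 := av_meas gm hf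
  have mβ := hφ.cont.measurable
  have i1 := ii (S := fun x => P.k0 * f x + θ * (av P.g f x - P.k0 * f x)) (by fun_prop)
    (mβ.comp m1) (by fun_prop) (fun x => hφ.mem _) bg x1 x2
  have i2 := ii (S := fun x => P.k0 * f x + 1 * (av (mg ρ l) f x - P.k0 * f x)) (by fun_prop)
    (mβ.comp m3) (by fun_prop) (fun x => hφ.mem _) bg' x1 x2
  have mono := intervalIntegral.integral_mono_on hx i1 (i2.add
    (intervalIntegrable_const (c := δ * (2 * P.k0 * C + C + 5 * C * B)))) fun x _ => by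
      have a := sel (y := P.k0 * f x) hθ.2 ((dg x).trans εδ)
      have b := mul_le_mul_of_nonneg_left a (hφ.mem (av P.k f x)).1
      have e1 : β (av P.k f x) * (5 * (δ * C)) ≤ B * (5 * (δ * C)) :=
        mul_le_mul_of_nonneg_right (hφ.mem _).2 (by positivity)
      have e2 : |(β (av P.k f x) - β (av (mk ρ l) f x)) *
          (Real.sign (P.k0 * f x + 1 * (av (mg ρ l) f x - P.k0 * f x)) *
            (av (mg ρ l) f x - P.k0 * f x))| ≤ δ * (1 * (2 * P.k0 * C + C)) := by
        rw [abs_mul, abs_mul]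
        gcongr
        exacts [db x, sign_abs _, bg' x]
      have e3 := (le_abs_self _).trans e2
      simp only [Function.comp_apply]
      linarith
  rw [intervalIntegral.integral_add i2 intervalIntegrable_const,
    intervalIntegral.integral_const, smul_eq_mul] at mono
  simp only [Function.comp_apply] at mono
  have a1 := abs_le.1 (dφ x1)
  have a2 := abs_le.1 (dφ x2)
  have a3 : os (mk ρ l) f c x2 ≤ os P.k f c x2 + δ * (C + |c|) := by
    have := mul_le_mul_of_nonneg_right ε2 (by positivity : 0 ≤ C + |c|)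
    linarith [(abs_le.1 dos).1]
  have a4 := mul_le_mul_of_nonneg_left a3 (by positivity : 0 ≤ 2 * B)
  rw [hQ] at hδ
  linarith

end MP34a893.C
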