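import Pool.Agent.MP_34a893_an.C.Spec

/-! Assembly for completely monotone kernels. -/

open MeasureTheory Set Filter Topology

namespace MP34a893.C

open E.Final in
theorem mainS (hPar : ParS) (hPot : PotS) (hR : RangeS) (hSc : ScaleS) (hPF : ParFactsS)
    (hLF : LagFactsS) (hEnt : EntS) (hErr : ErrS) (hSeq : SeqS) (hPos : PosS) (hApx : ApxS)
    (hLim : LimS) (hSol : SolS) (hO : OscS) (hSca : E.ScaS) (hLoc : E.LocS) (hKuz : E.KuzS) :
    MainS := by
  intro p T M V γ q0 q qs hp0 hp1 hT hM hV hV' hVs hγ hcm hq0m hq0 hq hqs a c e he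
  obtain ⟨P, hPp, hPk, hPΦ, -⟩ := hPar p V _ hp0 hp1 hV hV' hγ
  subst hPp
  have F := hPF P M hM
  obtain ⟨Fs, hFs⟩ := hSeq P _ hPk hcm
  have hst := hLim P (hApx P Fs hFs)
  have hbm := F.bm_nonneg
  have hf : ∀ κ ∈ Icc 0 M, P.f κ = V κ * κ := fun κ hκ => by rw [Par.f, hPΦ κ hκ.1, mul_comm]
  have hrange := hR T M V q0 qs hT hV hq0m hq0 hqs
  obtain ⟨CV, hCV⟩ := isCompact_Icc.exists_bound_of_continuousOn
    (hV.continuous.continuousOn (s := Icc 0 M))
  have hCV0 : 0 ≤ CV := (norm_nonneg _).trans (hCV 0 ⟨le_rfl, hM.le⟩)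
  have hqsm : Measurable (Function.uncurry qs) := hqs.1.1
  have hFm : Measurable (Function.uncurry fun t x => V (qs t x) * qs t x) :=
    (hV.continuous.measurable.comp hqsm).mul hqsm
  obtain ⟨-, -, -, hqs0⟩ := hPot T (M + CV * M) q0 qs (fun t x => V (qs t x) * qs t x) hT
    hqsm hFm (fun t ht => (hrange t ht).mono fun x hx => by
      constructor
      · rw [abs_of_nonneg hx.1]
        nlinarith [hx.2]
      · rw [abs_mul, abs_of_nonneg hx.1]
        have := mul_le_mul (hCV _ hx) hx.2 hx.1 hCV0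
        rw [Real.norm_eq_abs] at this
        linarith) hq0m (fun x => by
      rw [abs_of_nonneg (hq0 x).1]
      nlinarith [(hq0 x).2]) hqs.2.1 hqs.2.2.1
  obtain ⟨K, hK⟩ := (hV.mul contDiff_id).contDiffOn.exists_lipschitzOnWith one_ne_zero
    (convex_Icc 0 M) isCompact_Icc
  have hFl : E.Flux M K P.f := ⟨F.f_meas, K.2, fun x hx y hy => by
    rw [hf x hx, hf y hy]
    exact hK.dist_le_mul x hx y hy⟩
  obtain ⟨hrS, hrA⟩ := hLoc T M V q0 P.f qs hT hM hV hqs hrange hf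
  have hre : ∀ t ∈ Icc 0 T, ∀ᵐ x, max 0 (min (qs t x) M) = qs t x := fun t ht =>
    (hrange t ht).mono fun x hx => by rw [min_eq_left hx.2, max_eq_right hx.1]
  obtain ⟨R, e2, hTR, he2, hkuz⟩ := hKuz T M K P.f _ hT hM hFl hrS hrA a c e he
  have hR0 : 0 < R := hT.trans_le hTR
  obtain ⟨S0, hS0, herr⟩ := hErr P M hM (b_pos hM hPΦ hVs) (hPos P Fs hFs)
    (e2 / (4 * M * (P.bm M + 1) * R ^ 2)) (by positivity)
  refine ⟨R / S0, by positivity, fun η hη hη0 t ht => ?_⟩
  obtain ⟨L, Q, hLT, hL0, hLq, -, hP⟩ := hSc P η T M V _ q0 (q η) hη hT hM hPk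
    (fun s hs => hγ.2.2.2.1 s hs) hPΦ hV.continuous hγ.1 hq0m hq0 (hq η hη)
  have LF := hLF P M L hM
  have hex := hSol P M L hM hst
  have O := hO P M L hM
  have hsc : Measurable fun z : ℝ × ℝ => (z.1 / η, z.2 / η) := by fun_prop
  have hS : E.Sol T M fun t x => L.q (t / η) (x / η) :=
    ⟨hP.q_meas, fun _ _ => LF.q_mem _ _, fun a b t0 ht0 => by
      refine ((hq η hη).2.2.1 a b t0 ht0).congr' (eventually_mem_nhdsWithin.mono fun τ hτ => ?_)
      refine integral_congr_ae (ae_restrict_of_ae ?_)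
      filter_upwards [hLq τ hτ, hLq t0 ht0] with x h1 h2
      rw [h1, h2]⟩
  have hE : E.Err (4 * M * P.bm M * P.N M) fun t x => 4 * M * P.bm M * osc L (t / η) (x / η) :=
    ⟨(O.1.comp hsc).const_mul _, fun τ x => ⟨mul_nonneg (by positivity) (O.2.1 _ _).1,
      mul_le_mul_of_nonneg_left (O.2.1 _ _).2 (by positivity)⟩⟩
  have hA := hSca T M η P.f _ _ hη (hLT ▸ hEnt P M L hM hex)
  have h0 : ∀ᵐ x, L.q (0 / η) (x / η) = max 0 (min (qs 0 x) M) := by
    filter_upwards [hqs0, hre 0 ⟨le_rfl, hT.le⟩] with x h1 h2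
    rw [h2, h1, zero_div, Lag.q, LF.u_zero, hL0, mul_div_cancel₀ _ hη.ne',
      ← Real.rpow_mul (hq0 x).1, mul_one_div_cancel hp0.ne', Real.rpow_one]
  have hI : ∫ τ in (0 : ℝ)..T, ∫ x in Icc (-R) R,
      4 * M * P.bm M * osc L (τ / η) (x / η) ≤ e2 := by
    have h1 := herr L (R / η) (T / η) hex (by
      rw [lt_div_iff₀ hS0] at hη0
      rw [le_div_iff₀ hη]
      linarith) (by positivity) (by gcongr) hLT.ge
    have h2 : ∀ τ, ∫ x in Icc (-R) R, 4 * M * P.bm M * osc L τ (x / η) =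
        4 * M * P.bm M * η * ∫ x in (-(R / η))..(R / η), osc L τ x := fun τ => by
      rw [integral_Icc_eq_integral_Ioc, ← intervalIntegral.integral_of_le (by linarith),
        intervalIntegral.integral_const_mul, intervalIntegral.integral_comp_div
          (fun x => osc L τ x) hη.ne', smul_eq_mul, neg_div, mul_assoc (4 * M * P.bm M)]
    simp only [h2]
    rw [intervalIntegral.integral_const_mul, intervalIntegral.integral_comp_div
      (fun τ => ∫ x in (-(R / η))..(R / η), osc L τ x) hη.ne', smul_eq_mul, zero_div]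
    calc _ ≤ 4 * M * P.bm M * η * (η * (e2 / (4 * M * (P.bm M + 1) * R ^ 2) * (R / η) ^ 2)) := by
          gcongr
      _ ≤ 4 * M * (P.bm M + 1) * η *
          (η * (e2 / (4 * M * (P.bm M + 1) * R ^ 2) * (R / η) ^ 2)) := by
          gcongr
          linarith
      _ = e2 := by field_simp
  refine le_of_eq_of_le (integral_congr_ae (ae_restrict_of_ae ?_)) (hkuz _ _ _ hS hE hA h0 hI t ht)
  filter_upwards [hLq t ht, hre t ht] with x h1 h2
  rw [h1, h2]

end MP34a893.C
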