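import Pool.Agent.MP_34a893_an.C.Spec

/-! The kernels of the chain are ordered. -/

open MeasureTheory Set Filter Topology

namespace MP34a893.C

theorem monS (hT : TvS) : MonS := by
  intro n m ρ l α β r hm hρ hα hβ h0 hr0 hz hrm he s hs
  set ω : ℕ → ℝ → ℝ := fun j x => ∑ i, ρ i * r j i * Real.exp (l i * x) with hω
  set ω' : ℕ → ℝ → ℝ := fun j x => ∑ i, ρ i * r j i * (Real.exp (l i * x) * l i) with hω'
  have hd : ∀ j x, HasDerivAt (ω j) (ω' j x) x := fun j x => by
    refine HasDerivAt.fun_sum fun i _ => HasDerivAt.const_mul _ ?_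
    simpa using ((hasDerivAt_id x).const_mul (l i)).exp
  have hc : ∀ j, ContDiff ℝ 1 (ω j) := fun j => by
    simp only [hω]
    fun_prop
  have hc' : Continuous (ω' 0) := by
    simp only [hω']
    fun_prop
  choose K hK using fun j => ((hc j).contDiffOn (s := Icc (-s) 0)).exists_lipschitzOnWith
    one_ne_zero (convex_Icc _ _) isCompact_Icc
  have eq : ∀ x j, j < m →
      ω' j x = α j * (ω j x - ω (j - 1) x) + β j * (ω j x - ω (j + 1) x) := fun x j hj => by
    simp only [hω, hω', ← Finset.sum_sub_distrib, Finset.mul_sum, ← Finset.sum_add_distrib]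
    refine Finset.sum_congr rfl fun i _ => ?_
    linear_combination ρ i * Real.exp (l i * x) * he j hj i
  have zm : ∀ x, ω m x = 0 := fun x => Finset.sum_eq_zero fun i _ => by rw [hrm, zero_mul]
  have k := hT m α β ω ω' id (fun _ => 1) (ω' 0) 1 (-s) 0 ((Finset.range (m + 1)).sup K) hm hα hβ
    ⟨hasDerivAt_id, continuous_const, fun _ => ⟨zero_le_one, le_rfl⟩⟩ (by linarith)
    (fun j hj => (hK j).weaken (Finset.le_sup (f := K) (Finset.mem_range.2 (by omega))))
    (.of_forall fun x _ j _ => hd j x) zm (fun x _ j _ hj => eq x j hj)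
    (hc'.intervalIntegrable _ _) fun x _ => by
      rw [eq x 0 hm, h0, zero_mul, zero_add, one_mul]
      have : 0 ≤ (Real.sign (ω 0 x - ω 1 x) - 1) * (ω 0 x - ω 1 x) := by
        unfold Real.sign
        split_ifs <;> linarith
      nlinarith [mul_nonneg (hβ 0) this]
  rw [intervalIntegral.integral_eq_sub_of_hasDerivAt (fun x _ => hd 0 x)
    (hc'.intervalIntegrable _ _)] at k
  have z0 : ∀ j, 1 ≤ j → j ≤ m → ω j 0 = 0 := fun j h1 h2 => by simpa [hω] using hz j h1 h2
  have t0 : tv m id ω 0 = ω 0 0 := by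
    obtain ⟨m, rfl⟩ : ∃ k, m = k + 1 := ⟨m - 1, by omega⟩
    rw [tv, Finset.sum_range_succ', Finset.sum_eq_zero fun j hj => ?_]
    · simp only [id, zero_add, z0 1 le_rfl hm, sub_zero]
      refine abs_of_nonneg (Finset.sum_nonneg fun i _ => ?_)
      rw [hr0, mul_one]
      exact mul_nonneg (hρ i) (Real.exp_pos _).le
    · have := Finset.mem_range.1 hj
      simp [z0 (j + 1) (by omega) (by omega), z0 (j + 1 + 1) (by omega) (by omega)]
  have t1 : ∑ j ∈ Finset.range m, (ω j (-s) - ω (j + 1) (-s)) = ω 0 (-s) := by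
    rw [Finset.sum_range_sub' (fun j => ω j (-s)), zm, sub_zero]
  have t2 : ∑ j ∈ Finset.range m,
      (|ω j (-s) - ω (j + 1) (-s)| - (ω j (-s) - ω (j + 1) (-s))) = 0 := by
    refine le_antisymm ?_ (Finset.sum_nonneg fun j _ => sub_nonneg.2 (le_abs_self _))
    rw [Finset.sum_sub_distrib, t1]
    simp only [tv, id] at k t0
    linarith
  intro j hj
  have := (Finset.sum_eq_zero_iff_of_nonneg fun j _ => sub_nonneg.2 (le_abs_self _)).1 t2 j
    (Finset.mem_range.2 hj)
  have := abs_nonneg (ω j (-s) - ω (j + 1) (-s))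
  have e : ∀ j, mk (fun i => ρ i * r j i) l s = ω j (-s) := fun j => by simp [mk, hω]
  rw [e, e]
  linarith

end MP34a893.C
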