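import Pool.Agent.MP_34a893_an.C.Spec

/-! Taylor's formula at infinity and positivity of the kernel density. -/

open MeasureTheory Set Filter Topology

namespace MP34a893.C

namespace Rep

theorem nn {P : Par} {F : ℕ → ℝ → ℝ} (h : Seq P F) (m n : ℕ) {s t : ℝ} (hs : 0 < s) (ht : s < t) :
    0 ≤ (t - s) ^ n / n.factorial * F m t :=
  mul_nonneg (div_nonneg (pow_nonneg (sub_pos.2 ht).le _) (Nat.cast_nonneg _))
    (h.nonneg m t (hs.trans ht))

theorem pw (n : ℕ) {s r c : ℝ} (h : s < r) (hc : 0 ≤ c) :
    ∫⁻ t in Ioo s r, ENNReal.ofReal ((r - t) ^ n / n.factorial * c) =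
      ENNReal.ofReal ((r - s) ^ (n + 1) / (n + 1).factorial * c) := by
  have hi : IntegrableOn (fun t : ℝ => (r - t) ^ n / n.factorial * c) (Ioo s r) :=
    (Continuous.integrableOn_Icc (by fun_prop)).mono_set Ioo_subset_Icc_self
  rw [← ofReal_integral_eq_lintegral_ofReal hi ((ae_restrict_mem measurableSet_Ioo).mono
    fun t ht => mul_nonneg (div_nonneg (pow_nonneg (sub_pos.2 ht.2).le _) (Nat.cast_nonneg _)) hc),
    ← integral_Ioc_eq_integral_Ioo, ← intervalIntegral.integral_of_le h.le,
    intervalIntegral.integral_mul_const, intervalIntegral.integral_div,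
    intervalIntegral.integral_comp_sub_left (fun x : ℝ => x ^ n), integral_pow, Nat.factorial_succ]
  congr 2
  push_cast
  have : (n.factorial : ℝ) ≠ 0 := by positivity
  field_simp
  simp

theorem lin {P : Par} {F : ℕ → ℝ → ℝ} (h : Seq P F) (n : ℕ) : ∀ (m : ℕ) (s : ℝ), 0 < s →
    ∫⁻ t in Ioi s, ENNReal.ofReal ((t - s) ^ n / n.factorial * F (m + n + 1) t) =
      ENNReal.ofReal (F m s) := by
  have b : ∀ (m : ℕ) (s : ℝ), 0 < s →
      ∫⁻ t in Ioi s, ENNReal.ofReal (F (m + 1) t) = ENNReal.ofReal (F m s) := fun m s hs => by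
    rw [h.tail m s hs, ofReal_integral_eq_lintegral_ofReal (h.int m s hs)
      ((ae_restrict_mem measurableSet_Ioi).mono fun t ht => h.nonneg _ t (hs.trans ht))]
  induction n with
  | zero => simpa using b
  | succ n ih =>
    intro m s hs
    have hm : Measurable (Function.uncurry fun t r : ℝ => {p : ℝ × ℝ | p.1 < p.2}.indicator
        (fun p => ENNReal.ofReal ((p.2 - p.1) ^ n / n.factorial * F (m + 1 + n + 1) p.2)) (t, r)) :=
      Measurable.indicator (ENNReal.measurable_ofReal.comp
        ((((measurable_snd.sub measurable_fst).pow_const n).div_const _).mul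
          ((h.meas _).comp measurable_snd))) (measurableSet_lt measurable_fst measurable_snd)
    have sw := lintegral_lintegral_swap (μ := volume.restrict (Ioi s))
      (ν := volume.restrict (Ioi s)) hm.aemeasurable
    rw [← b m s hs, show m + (n + 1) + 1 = m + 1 + n + 1 by ring]
    refine ((setLIntegral_congr_fun measurableSet_Ioi fun r hr => ?_).trans sw.symm).trans
      (setLIntegral_congr_fun measurableSet_Ioi fun t ht => ?_)
    · rw [← pw n hr (h.nonneg _ r (hs.trans hr)), ← Iio_inter_Ioi,
        ← Measure.restrict_restrict measurableSet_Iio, ← lintegral_indicator measurableSet_Iio]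
      rfl
    · have e : Ioi t ∩ Ioi s = Ioi t := inter_eq_left.2 (Ioi_subset_Ioi (le_of_lt ht))
      rw [← ih (m + 1) t (hs.trans ht), ← e, ← Measure.restrict_restrict measurableSet_Ioi,
        ← lintegral_indicator (s := Ioi t) measurableSet_Ioi]
      rfl

end Rep

open Rep

theorem repS : RepS := by
  intro P F h n s hs
  have e := lin h n 1 s hs
  rw [show 1 + n + 1 = n + 2 by ring] at e
  have p : 0 ≤ᵐ[volume.restrict (Ioi s)] fun t => (t - s) ^ n / n.factorial * F (n + 2) t :=
    (ae_restrict_mem measurableSet_Ioi).mono fun t ht => nn h _ n hs ht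
  have m : AEStronglyMeasurable (fun t => (t - s) ^ n / n.factorial * F (n + 2) t)
      (volume.restrict (Ioi s)) :=
    ((((measurable_id.sub_const s).pow_const n).div_const _).mul (h.meas _)).aestronglyMeasurable
  refine ⟨⟨m, (hasFiniteIntegral_iff_ofReal p).2 (e ▸ ENNReal.ofReal_lt_top)⟩, ?_⟩
  rw [integral_eq_lintegral_of_nonneg_ae p m, e, ENNReal.toReal_ofReal (h.nonneg 1 s hs)]

theorem posS (_hP : ParFactsS) (hR : RepS) : PosS := by
  intro P F h
  have key : ∀ s0, 0 < s0 → 0 < F 1 s0 := fun s0 h0 => by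
    refine (h.nonneg 1 s0 h0).lt_of_ne fun e0 => ?_
    have z : ∀ n : ℕ, ∀ᵐ t, s0 < t → F (n + 2) t = 0 := fun n => by
      obtain ⟨i, e⟩ := hR P F h n s0 h0
      have := (integral_eq_zero_iff_of_nonneg_ae ((ae_restrict_mem measurableSet_Ioi).mono
        fun t ht => nn h _ n h0 ht) i).1 (e.symm.trans e0.symm)
      refine ((ae_restrict_iff' measurableSet_Ioi).1 this).mono fun t ht hx => ?_
      have hp : 0 < (t - s0) ^ n / n.factorial := div_pos (pow_pos (sub_pos.2 hx) _) (by positivity)
      exact (mul_eq_zero.1 (ht hx)).resolve_left hp.ne'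
    have all : ∀ s, 0 < s → F 1 s ≤ 0 := fun s hs => by
      have hd : 0 < s0 + s / 2 := by positivity
      have r0 : 0 ≤ s0 / (s0 + s / 2) := by positivity
      have r1 : s0 / (s0 + s / 2) < 1 := (div_lt_one hd).2 (by linarith)
      have lim := (tendsto_pow_atTop_nhds_zero_of_lt_one r0 r1).mul_const (F 1 (s / 2))
      rw [zero_mul] at lim
      refine ge_of_tendsto' lim fun n => ?_
      obtain ⟨i1, e1⟩ := hR P F h n s hs
      obtain ⟨i2, e2⟩ := hR P F h n (s / 2) (half_pos hs)
      have sub : Ioi s ⊆ Ioi (s / 2) := Ioi_subset_Ioi (half_le_self hs.le)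
      rw [e1, e2]
      refine le_trans ?_ (mul_le_mul_of_nonneg_left (setIntegral_mono_set i2
        ((ae_restrict_mem measurableSet_Ioi).mono fun t ht => nn h _ n (half_pos hs) ht)
        sub.eventuallyLE) (pow_nonneg r0 n))
      rw [← integral_const_mul]
      refine integral_mono_ae i1 ((i2.mono_set sub).const_mul _) ?_
      filter_upwards [ae_restrict_mem measurableSet_Ioi, ae_restrict_of_ae (z n)] with t ht hz
      have ht' : s < t := ht
      rcases lt_or_ge (s0 + s) t with c | c
      · rw [hz (by linarith)]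
        simp
      · rw [← mul_assoc, ← mul_div_assoc, ← mul_pow]
        refine mul_le_mul_of_nonneg_right (div_le_div_of_nonneg_right
          (pow_le_pow_left₀ (by linarith) ?_ n) (Nat.cast_nonneg _)) (h.nonneg _ t (hs.trans ht'))
        rw [div_mul_eq_mul_div, le_div_iff₀ hd]
        nlinarith
    have bad : ∀ᵐ s, s ∉ Icc P.s1 P.s2 := h.g_eq.mono fun s hs hm => by
      have s0 := P.hs1.trans_le hm.1
      have := P.hgm s hm
      rw [hs s0] at this
      linarith [all s s0, P.hm0]
    have := measure_eq_zero_iff_ae_notMem.2 bad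
    rw [Real.volume_Icc, ENNReal.ofReal_eq_zero] at this
    linarith [P.hs12]
  exact h.g_eq.mono fun s hs s0 => (hs s0).symm ▸ key s s0

end MP34a893.C
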