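import Pool.Agent.MP_34a893_an.C.Spec

/-! Signed derivatives of a completely monotone kernel. -/

open MeasureTheory Set Filter Topology

namespace MP34a893.C

namespace SeqP

noncomputable def G (k : ℝ → ℝ) (n : ℕ) (s : ℝ) : ℝ := (-1) ^ n * iteratedDeriv n k s

theorem der {k : ℝ → ℝ} (h : CompMono k) (n : ℕ) {s : ℝ} (hs : 0 < s) :
    HasDerivAt (G k n) (-(G k (n + 1) s)) s := by
  have h1 := (((h n).1 s hs).differentiableAt (Ioi_mem_nhds hs)).hasDerivAt
  refine (h1.const_mul ((-1 : ℝ) ^ n)).congr_deriv ?_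
  rw [G, iteratedDeriv_succ, pow_succ]
  ring

theorem nn {k : ℝ → ℝ} (h : CompMono k) (n : ℕ) {s : ℝ} (hs : 0 < s) : 0 ≤ G k n s :=
  (h n).2 s hs

theorem anti {k : ℝ → ℝ} (h : CompMono k) (n : ℕ) : AntitoneOn (G k n) (Ioi 0) := by
  refine antitoneOn_of_hasDerivWithinAt_nonpos (convex_Ioi 0) (f' := fun s => -(G k (n + 1) s))
    (fun s hs => (der h n hs).continuousAt.continuousWithinAt)
    (fun s hs => (der h n (interior_subset hs)).hasDerivWithinAt) fun s hs => ?_
  exact neg_nonpos.2 (nn h _ (interior_subset hs))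

theorem step {k : ℝ → ℝ} (h : CompMono k) (n : ℕ) {x : ℝ} (hx : 1 < x) :
    G k (n + 1) x ≤ G k n (x - 1) := by
  have hx1 : 0 < x - 1 := by linarith
  obtain ⟨c, hc, e⟩ := exists_hasDerivAt_eq_slope (G k n) (fun s => -(G k (n + 1) s))
    (show x - 1 < x by linarith)
    (fun s hs => (der h n (hx1.trans_le hs.1)).continuousAt.continuousWithinAt)
    (fun s hs => der h n (hx1.trans hs.1))
  have a1 := anti h (n + 1) (hx1.trans hc.1) (show x ∈ Ioi (0 : ℝ) from zero_lt_one.trans hx)
    hc.2.le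
  have a2 := nn h n (zero_lt_one.trans hx)
  rw [sub_sub_cancel, div_one] at e
  linarith

theorem lim {k : ℝ → ℝ} (h : CompMono k) (h0 : Tendsto k atTop (𝓝 0)) (n : ℕ) :
    Tendsto (G k n) atTop (𝓝 0) := by
  induction n with
  | zero =>
    refine h0.congr fun s => ?_
    simp [G]
  | succ n ih =>
    have a1 : Tendsto (fun x : ℝ => G k n (x - 1)) atTop (𝓝 0) :=
      ih.comp (tendsto_atTop_add_const_right atTop (-1) tendsto_id)
    refine tendsto_of_tendsto_of_tendsto_of_le_of_le' tendsto_const_nhds a1 ?_ ?_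
    · exact (eventually_gt_atTop 0).mono fun x hx => nn h _ hx
    · exact (eventually_gt_atTop 1).mono fun x hx => step h n hx

theorem meas (k : ℝ → ℝ) (n : ℕ) : Measurable (G k (n + 1)) := by
  unfold G
  rw [iteratedDeriv_succ]
  exact (measurable_deriv _).const_mul _

end SeqP

open SeqP in
theorem seqS (hP : ParFactsS) : SeqS := by
  intro P k hk h
  have F := hP P 1 one_pos
  have h0 : Tendsto k atTop (𝓝 0) := by
    have a1 : Tendsto P.k atTop (𝓝 0) := tendsto_integral_Ioi_zero (b := id) tendsto_id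
    exact a1.congr' ((eventually_ge_atTop 0).mono fun s hs => hk s hs)
  have hi : ∀ n s, 0 < s → IntegrableOn (fun t => -(G k (n + 1) t)) (Ioi s) := fun n s hs =>
    integrableOn_Ioi_deriv_of_nonpos' (fun x hx => der h n (hs.trans_le hx))
      (fun x hx => neg_nonpos.2 (nn h _ (hs.trans hx))) (lim h h0 n)
  have ht : ∀ n s, 0 < s → G k n s = ∫ t in Ioi s, G k (n + 1) t := fun n s hs => by
    have a1 := integral_Ioi_of_hasDerivAt_of_tendsto' (fun x hx => der h n (hs.trans_le hx))
      (hi n s hs) (lim h h0 n)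
    rw [integral_neg] at a1
    linarith
  have e0 : ∀ s, 0 < s → P.k s = G k 0 s := fun s hs => by
    rw [hk s hs.le]
    simp [G]
  refine ⟨fun n => Nat.casesOn n P.k fun m => G k (m + 1), ?_, ?_, ?_, ?_, ?_⟩
  · rintro (_ | n)
    · exact F.k_cont.measurable
    · exact meas k n
  · rintro (_ | n) s hs
    · exact F.k_nonneg s
    · exact nn h _ hs
  · have h1 := LocallyIntegrable.ae_hasDerivAt_integral P.hgi.locallyIntegrable
    filter_upwards [h1] with s hs hs0
    have d1 : HasDerivAt (fun c => P.k 0 - P.k c) (P.g s) s := by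
      simpa only [F.k_sub] using hs 0
    have d2 : HasDerivAt (fun c => P.k 0 - G k 0 c) (G k 1 s) s :=
      ((der h 0 hs0).const_sub (P.k 0)).congr_deriv (neg_neg _)
    have d3 : HasDerivAt (fun c => P.k 0 - P.k c) (G k 1 s) s :=
      d2.congr_of_eventuallyEq ((eventually_gt_nhds hs0).mono fun c hc => by simp only [e0 c hc])
    exact d1.unique d3
  · intro n s hs
    exact integrable_neg_iff.1 (hi n s hs)
  · rintro (_ | n) s hs
    · exact (e0 s hs).trans (ht 0 s hs)
    · exact ht (n + 1) s hs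

end MP34a893.C
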