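import Pool.Agent.MP_34a893_an.C.Spec

/-! The slope of the look-ahead average is controlled by the dissipation. -/

open MeasureTheory Set Filter Topology

namespace MP34a893.C

namespace Slo

open E.Err

theorem kpos {P : Par} (h : Pos P) {s : ℝ} (hs : 0 < s) : 0 < P.k s := by
  rw [Par.k, setIntegral_pos_iff_support_of_nonneg_ae (.of_forall P.hg0) P.hgi.integrableOn]
  have : (Ioi s : Set ℝ) ≤ᵐ[volume] (Function.support P.g ∩ Ioi s : Set ℝ) := by
    filter_upwards [h] with r hr hrs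
    exact ⟨(hr (hs.trans hrs)).ne', hrs⟩
  exact lt_of_lt_of_le (by simp) (measure_mono_ae this)

theorem small {P : Par} {M : ℝ} (F : P.Facts M) (h : Pos P) {η : ℝ} (hη : 0 < η) :
    ∃ La : ℝ, 0 ≤ La ∧ ∫ s in Ioi (0 : ℝ), max (P.g s - La * P.k s) 0 ≤ η := by
  have T : Tendsto (fun n : ℕ => ∫ s in Ioi (0 : ℝ), max (P.g s - n * P.k s) 0) atTop
      (𝓝 (∫ _ in Ioi (0 : ℝ), (0 : ℝ))) := by
    refine tendsto_integral_of_dominated_convergence P.g (fun n => ?_) P.hgi.integrableOn
      (fun n => .of_forall fun s => ?_) ?_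
    · exact ((P.hg.sub (F.k_cont.measurable.const_mul _)).max
        measurable_const).aestronglyMeasurable
    · rw [Real.norm_of_nonneg (le_max_right _ _)]
      exact max_le (sub_le_self _ (mul_nonneg n.cast_nonneg (F.k_nonneg s))) (P.hg0 s)
    · filter_upwards [ae_restrict_mem measurableSet_Ioi] with s hs
      refine tendsto_const_nhds.congr' ?_
      filter_upwards [tendsto_natCast_atTop_atTop.eventually_ge_atTop (P.g s / P.k s)] with n hn
      exact (max_eq_right (sub_nonpos.2 ((div_le_iff₀ (kpos h hs)).1 hn))).symm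
  rw [integral_zero] at T
  obtain ⟨n, hn⟩ := (T.eventually (ge_mem_nhds hη)).exists
  exact ⟨n, n.cast_nonneg, hn⟩

theorem imul {k w : ℝ → ℝ} {N : ℝ} (hk : IntegrableOn k (Ioi 0)) (hw : Measurable w)
    (hN : ∀ s, w s ∈ Icc 0 N) : IntegrableOn (fun s => k s * w s) (Ioi 0) :=
  hk.mul_bdd (c := N) hw.aestronglyMeasurable (.of_forall fun s => by
    rw [Real.norm_of_nonneg (hN s).1]; exact (hN s).2)

theorem cmp {P : Par} {M La η N : ℝ} (F : P.Facts M)
    (h : ∫ s in Ioi (0 : ℝ), max (P.g s - La * P.k s) 0 ≤ η) {w : ℝ → ℝ} (hw : Measurable w)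
    (hN : ∀ s, w s ∈ Icc 0 N) :
    ∫ s in Ioi (0 : ℝ), P.g s * w s ≤ La * (∫ s in Ioi (0 : ℝ), P.k s * w s) + η * N := by
  have i1 := (imul F.k_int hw hN).const_mul La
  have i2 : IntegrableOn (fun s => max (P.g s - La * P.k s) 0) (Ioi 0) :=
    (P.hgi.integrableOn.sub (F.k_int.const_mul La)).pos_part
  calc _ ≤ ∫ s in Ioi (0 : ℝ), (La * (P.k s * w s) + max (P.g s - La * P.k s) 0 * N) := by
        refine integral_mono (imul P.hgi.integrableOn hw hN) (i1.add (i2.mul_const N)) fun s => ?_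
        have h1 := mul_le_mul_of_nonneg_right (le_max_left (P.g s - La * P.k s) 0) (hN s).1
        have h2 := mul_le_mul_of_nonneg_left (hN s).2 (le_max_right (P.g s - La * P.k s) 0)
        beta_reduce
        linarith
    _ ≤ _ := by
        rw [integral_add i1 (i2.mul_const N), integral_const_mul, integral_mul_const]
        exact add_le_add le_rfl (mul_le_mul_of_nonneg_right h ((hN 0).1.trans (hN 0).2))

theorem pt {N δ b0 β D z ε : ℝ} (hε : 0 < ε) (hN : 2 * δ < N) (h0 : 0 < b0) (hβ : 0 ≤ β)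
    (hb : z ∈ Icc δ (N - δ) → b0 ≤ β) (h1 : z < δ → -2 * D ≤ ε) (h2 : N - δ < z → 2 * D ≤ ε) :
    |D| ≤ th N δ z * D + ε + 1 / (b0 * ε) * (β * D ^ 2) := by
  have p : 0 ≤ 1 / (b0 * ε) * (β * D ^ 2) := by positivity
  have d : 0 < N - 2 * δ := by linarith
  by_cases c1 : z < δ
  · have : th N δ z = 1 := by
      rw [th, min_eq_left ((one_le_div d).2 (by linarith)), max_eq_right (by norm_num)]
    rw [this]
    exact abs_le.2 ⟨by linarith [h1 c1], by linarith⟩
  by_cases c2 : N - δ < z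
  · have : th N δ z = -1 :=
      max_eq_left ((min_le_right _ _).trans ((div_le_iff₀ d).2 (by linarith)))
    rw [this]
    exact abs_le.2 ⟨by linarith, by linarith [h2 c2]⟩
  have h3 := hb ⟨not_lt.1 c1, not_lt.1 c2⟩
  have h4 : |th N δ z * D| ≤ |D| := by
    rw [abs_mul]
    exact mul_le_of_le_one_left (abs_nonneg _) (th_abs _ _ _)
  have h5 : 1 / ε * |D| ^ 2 ≤ 1 / (b0 * ε) * (β * D ^ 2) := by
    rw [sq_abs]
    calc _ = 1 / (b0 * ε) * (b0 * D ^ 2) := by field_simp
      _ ≤ _ := by gcongr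
  have h6 : 2 * |D| ≤ ε + 1 / ε * |D| ^ 2 := by
    rw [div_mul_eq_mul_div, ← sub_le_iff_le_add', le_div_iff₀ hε]
    nlinarith [sq_nonneg (|D| - ε)]
  linarith [neg_abs_le (th N δ z * D)]

end Slo

open Slo E.Err in
theorem sloS (hP : ParFactsS) (hL : LagFactsS) (hC : E.ChainS) : SloS := by
  intro P M hM hb hp e he
  have F := hP P M hM
  have hN := F.N_pos
  have hk := F.k0_pos
  obtain ⟨La, hLa, hs⟩ := small F hp (η := e / (8 * P.N M)) (by positivity)
  have eη : e / (8 * P.N M) * P.N M = e / 8 := by field_simp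
  obtain ⟨δ, hδ, hδ1, hδ2⟩ : ∃ δ, 0 < δ ∧ 2 * δ < P.N M ∧ La * δ ≤ e / 8 := by
    refine ⟨min (P.N M / 4) (e / (8 * (La + 1))), by positivity,
      by linarith [min_le_left (P.N M / 4) (e / (8 * (La + 1)))], ?_⟩
    have h1 := (le_div_iff₀ (by positivity)).1 (min_le_right (P.N M / 4) (e / (8 * (La + 1))))
    have h2 : 0 < min (P.N M / 4) (e / (8 * (La + 1))) := by positivity
    nlinarith
  obtain ⟨z0, hz0, hz1⟩ := isCompact_Icc.exists_isMinOn
    (nonempty_Icc.2 (by linarith : δ ≤ P.N M - δ)) P.hb.continuousOn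
  have h0 : 0 < P.b z0 := hb z0 ⟨by linarith [hz0.1], by linarith [hz0.2]⟩
  set c := 1 / (P.b z0 * (e / 2)) with hc
  have c0 : 0 ≤ c := by positivity
  refine ⟨P.N M + c, by positivity, fun L t S hS => ?_⟩
  have G := hL P M L hM
  have hSS : -S ≤ S := by linarith
  have um : ∀ x, L.u t x ∈ Icc 0 (P.N M) := fun x => ⟨G.u_nonneg t x, L.u_le t x⟩
  have mu : Measurable (L.u t) := L.u_meas.comp measurable_prodMk_left
  have mZ : Measurable (L.Z t) := L.Z_cont.measurable.comp (measurable_prodMk_left (x := t))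
  have mG : Measurable (L.G t) := L.G_cont.measurable.comp (measurable_prodMk_left (x := t))
  have mw : Measurable fun x => P.k0 * L.u t x - L.G t x := (mu.const_mul _).sub mG
  have ku : ∀ x, P.k0 * L.u t x ∈ Icc 0 (P.k0 * P.N M) := fun x =>
    ⟨mul_nonneg hk.le (um x).1, mul_le_mul_of_nonneg_left (um x).2 hk.le⟩
  have d1 : ∀ x, |P.k0 * L.u t x - L.G t x| ≤ P.k0 * P.N M := fun x =>
    abs_le.2 ⟨by linarith [(ku x).1, (G.G_mem t x).2], by linarith [(ku x).2, (G.G_mem t x).1]⟩
  have ms : ∀ x, Measurable fun s => L.u t (x + s) := fun x => mu.comp (measurable_const_add x)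
  have lo : ∀ x, L.G t x ≤ La * L.Z t x + e / 8 := fun x =>
    eη ▸ cmp F hs (ms x) fun s => um (x + s)
  have hi : ∀ x, P.k0 * P.N M - L.G t x ≤ La * (P.N M - L.Z t x) + e / 8 := fun x => by
    have h := cmp F hs (N := P.N M) ((ms x).const_sub (P.N M)) fun s =>
      ⟨sub_nonneg.2 (um _).2, sub_le_self _ (um _).1⟩
    simp only [mul_sub] at h
    rw [integral_sub (P.hgi.integrableOn.mul_const _)
        (imul P.hgi.integrableOn (ms x) fun s => um _),
      integral_sub (F.k_int.mul_const _) (imul F.k_int (ms x) fun s => um _), integral_mul_const,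
      integral_mul_const, F.g_int, F.k_one, one_mul, eη] at h
    exact h
  have hθ := th_cont (P.N M) δ
  have k1 : ∫ x in (-S)..S, th (P.N M) δ (L.Z t x) * (P.k0 * L.u t x - L.G t x) ≤ P.N M := by
    have h1 := hC (L.Z t) (fun x => -(P.k0 * L.u t x - L.G t x))
      (fun z => ∫ y in (0 : ℝ)..z, th (P.N M) δ y) (th (P.N M) δ) (P.k0 * P.N M) mw.neg
      (fun x => by rw [abs_neg]; exact d1 x)
      (fun x1 x2 => by simpa only [neg_sub] using G.Z_sub t x1 x2)
      (fun z => (hθ.integral_hasStrictDerivAt 0 z).hasDerivAt) hθ (-S) S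
    simp only [mul_neg, intervalIntegral.integral_neg] at h1
    rw [intervalIntegral.integral_interval_sub_left (hθ.intervalIntegrable _ _)
      (hθ.intervalIntegrable _ _)] at h1
    have h2 := intervalIntegral.norm_integral_le_of_norm_le_const (a := L.Z t (-S)) (b := L.Z t S)
      (f := th (P.N M) δ) (C := 1) fun y _ => th_abs _ _ _
    have h3 : |L.Z t S - L.Z t (-S)| ≤ P.N M := abs_le.2
      ⟨by linarith [(G.Z_mem t S).1, (G.Z_mem t (-S)).2],
        by linarith [(G.Z_mem t S).2, (G.Z_mem t (-S)).1]⟩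
    rw [h1, Real.norm_eq_abs] at h2
    linarith [(abs_le.1 h2).1]
  have i1 := intInt (f := fun x => th (P.N M) δ (L.Z t x) * (P.k0 * L.u t x - L.G t x))
    (C := 1 * (P.k0 * P.N M)) ((hθ.measurable.comp mZ).mul mw) (fun x => by
      rw [abs_mul]
      exact mul_le_mul (th_abs _ _ _) (d1 x) (abs_nonneg _) zero_le_one) (-S) S
  have i2 := intInt (f := fun x => P.b (L.Z t x) * (P.k0 * L.u t x - L.G t x) ^ 2)
    (C := P.bm M * (P.k0 * P.N M) ^ 2) ((P.hb.measurable.comp mZ).mul (mw.pow_const 2)) (fun x => by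
      rw [abs_mul, abs_of_nonneg (P.hb0 _), abs_pow]
      exact mul_le_mul (F.b_le _ (G.Z_mem t x)) (pow_le_pow_left₀ (abs_nonneg _) (d1 x) 2)
        (by positivity) F.bm_nonneg) (-S) S
  have i3 : IntervalIntegrable (fun _ : ℝ => e / 2) volume (-S) S := intervalIntegrable_const
  have p : 0 ≤ ∫ x in (-S)..S, P.b (L.Z t x) * (P.k0 * L.u t x - L.G t x) ^ 2 :=
    intervalIntegral.integral_nonneg hSS fun x _ => mul_nonneg (P.hb0 _) (sq_nonneg _)
  refine (mono (g := fun x => th (P.N M) δ (L.Z t x) * (P.k0 * L.u t x - L.G t x) + e / 2 +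
    c * (P.b (L.Z t x) * (P.k0 * L.u t x - L.G t x) ^ 2)) hSS (fun x => abs_nonneg _)
    ((i1.add i3).add (i2.const_mul c)) fun x => ?_).trans ?_
  · refine pt (half_pos he) hδ1 h0 (P.hb0 _) (fun h => hz1 h) (fun h => ?_) fun h => ?_
    · linarith [lo x, (ku x).1, mul_le_mul_of_nonneg_left h.le hLa]
    · linarith [hi x, (ku x).2,
        mul_le_mul_of_nonneg_left (show P.N M - L.Z t x ≤ δ by linarith) hLa]
  · rw [intervalIntegral.integral_add (i1.add i3) (i2.const_mul c),
      intervalIntegral.integral_add i1 i3, intervalIntegral.integral_const_mul c,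
      intervalIntegral.integral_const, smul_eq_mul]
    nlinarith [mul_nonneg hN.le p]

end MP34a893.C
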