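import Pool.Agent.MP_34a893_an.C.Spec

/-! The static entropy inequality for the solution, and the local oscillation. -/

open MeasureTheory Set Filter Topology

namespace MP34a893.C

namespace Sol

theorem int_mul {k f : ℝ → ℝ} {C : ℝ} (hk : IntegrableOn k (Ioi 0)) (hf : Measurable f)
    (hC : ∀ s, |f s| ≤ C) : IntegrableOn (fun s => k s * f s) (Ioi 0) :=
  Integrable.mul_bdd hk hf.aestronglyMeasurable (Eventually.of_forall hC)

theorem av_sub {k f : ℝ → ℝ} {C : ℝ} (hk : IntegrableOn k (Ioi 0)) (hf : Measurable f)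
    (hC : ∀ s, |f s| ≤ C) (z x : ℝ) :
    av k (fun y => f y - z) x = (∫ s in Ioi (0 : ℝ), k s * f (x + s)) - (∫ s in Ioi (0 : ℝ), k s) * z := by
  have h1 : IntegrableOn (fun s => k s * f (x + s)) (Ioi 0) :=
    int_mul hk (hf.comp (measurable_const_add x)) fun s => hC _
  rw [av, ← integral_mul_const, ← integral_sub h1 (hk.mul_const z)]
  simp only [mul_sub]

/-- The profile seen from the level `z`. -/
theorem prof (P : Par) {M : ℝ} (F : P.Facts M) {z : ℝ} (hz : z ∈ Icc 0 (P.N M)) :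
    ∃ φ β : ℝ → ℝ, Prof φ β (P.bm M) ∧ φ 0 = 0 ∧
      ∀ Z ∈ Icc 0 (P.N M), β (Z - z) = P.b Z ∧ φ (Z - z) = P.Φ z - P.Φ Z := by
  have hc : Continuous fun w => P.b (max 0 (min (z + w) (P.N M))) := P.hb.comp (by fun_prop)
  have he : ∀ y ∈ Icc 0 (P.N M), max 0 (min y (P.N M)) = y := fun y hy => by
    rw [min_eq_left hy.2, max_eq_right hy.1]
  refine ⟨fun w => ∫ y in (0 : ℝ)..w, P.b (max 0 (min (z + y) (P.N M))), _,
    ⟨fun w => (hc.integral_hasStrictDerivAt 0 w).hasDerivAt, hc, fun w => ⟨P.hb0 _, F.b_le _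
      ⟨le_max_left _ _, max_le F.N_pos.le (min_le_right _ _)⟩⟩⟩,
    intervalIntegral.integral_same, fun Z hZ => ⟨by rw [add_sub_cancel, he Z hZ], ?_⟩⟩
  have h1 : ∫ y in (0 : ℝ)..Z - z, P.b (max 0 (min (z + y) (P.N M))) =
      ∫ y in (0 : ℝ)..Z - z, P.b (z + y) := by
    refine intervalIntegral.integral_congr fun y hy => ?_
    have : z + y ∈ Icc 0 (P.N M) := by
      rcases mem_uIcc.1 hy with h | h <;> constructor <;> linarith [h.1, h.2, hz.1, hz.2, hZ.1, hZ.2]
    simp only [he _ this]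
  have h2 := intervalIntegral.integral_eq_sub_of_hasDerivAt (a := 0) (b := Z - z)
    (f := fun y => -P.Φ (z + y)) (f' := fun y => P.b (z + y))
    (fun y _ => by simpa using ((P.hΦ (z + y)).comp_const_add z y).fun_neg)
    ((P.hb.comp (by fun_prop)).intervalIntegrable _ _)
  simp only [h1, h2, add_sub_cancel, add_zero]
  ring

end Sol

theorem solS (hP : ParFactsS) (hL : LagFactsS) : SolS := by
  intro P M L hM hS θ hθ z hz t x1 x2 hx
  have F := hP P M hM
  have G := hL P M L hM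
  obtain ⟨φ, β, hp, h0, he⟩ := Sol.prof P F hz
  have hu : Measurable (L.u t) := L.u_meas.comp measurable_prodMk_left
  have hb : ∀ x, |L.u t x| ≤ P.N M := fun x => by
    rw [abs_of_nonneg (G.u_nonneg t x)]
    exact L.u_le t x
  have e1 : ∀ x, av P.k (fun y => L.u t y - z) x = L.Z t x - z := fun x => by
    rw [Sol.av_sub F.k_int hu hb, F.k_one, one_mul, Lag.Z]
  have e2 : ∀ x, av P.g (fun y => L.u t y - z) x - P.k0 * (L.u t x - z) =
      L.G t x - P.k0 * L.u t x := fun x => by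
    rw [Sol.av_sub P.hgi.integrableOn hu hb, F.g_int, Lag.G]
    ring
  have h := hS θ hθ (fun y => L.u t y - z) φ β (P.N M) (P.bm M) (hu.sub_const z)
    (fun x => abs_le.2 ⟨by linarith [G.u_nonneg t x, hz.2], by linarith [L.u_le t x, hz.1]⟩) hp
    (L.u t x2 - z) x1 x2 hx
  simp only [e1, e2, h0, sub_zero, fun x => (he _ (G.Z_mem t x)).1,
    fun x => (he _ (G.Z_mem t x)).2, os, sub_sub_sub_cancel_right] at h
  rw [Lag.v, Lag.v, abs_sub_comm (P.Φ (L.Z t x2)), abs_sub_comm (P.Φ (L.Z t x1)), os]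
  exact h

theorem oscS (hP : ParFactsS) (hL : LagFactsS) : OscS := by
  intro P M L hM
  have F := hP P M hM
  have G := hL P M L hM
  have hu : ∀ t, Measurable (L.u t) := fun t => L.u_meas.comp measurable_prodMk_left
  have hb : ∀ t x, |L.u t x| ≤ P.N M := fun t x => by
    rw [abs_of_nonneg (G.u_nonneg t x)]
    exact L.u_le t x
  have hd : ∀ t x y, |L.u t x - L.u t y| ≤ P.N M := fun t x y =>
    abs_le.2 ⟨by linarith [G.u_nonneg t x, L.u_le t y], by linarith [G.u_nonneg t y, L.u_le t x]⟩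
  refine ⟨?_, fun t x => ⟨integral_nonneg fun s => mul_nonneg (F.k_nonneg s) (abs_nonneg _), ?_⟩,
    fun t x => ?_⟩
  · have h1 : Measurable fun w : (ℝ × ℝ) × ℝ => L.u w.1.1 (w.1.2 + w.2) :=
      L.u_meas.comp (f := fun w : (ℝ × ℝ) × ℝ => (w.1.1, w.1.2 + w.2)) (by fun_prop)
    have h2 : Measurable fun w : (ℝ × ℝ) × ℝ => L.u w.1.1 w.1.2 := L.u_meas.comp measurable_fst
    have h3 : Measurable fun w : (ℝ × ℝ) × ℝ =>
        P.k w.2 * |L.u w.1.1 (w.1.2 + w.2) - L.u w.1.1 w.1.2| :=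
      (F.k_cont.measurable.comp measurable_snd).mul (h1.sub h2).abs
    exact (h3.stronglyMeasurable.integral_prod_right' (ν := volume.restrict (Ioi 0))).measurable
  · calc osc L t x ≤ ∫ s in Ioi (0 : ℝ), P.k s * P.N M :=
          integral_mono_of_nonneg
            (Eventually.of_forall fun s => mul_nonneg (F.k_nonneg s) (abs_nonneg _))
            (F.k_int.mul_const _)
            (Eventually.of_forall fun s => mul_le_mul_of_nonneg_left (hd _ _ _) (F.k_nonneg s))
      _ = P.N M := by rw [integral_mul_const, F.k_one, one_mul]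
  · have e := Sol.av_sub F.k_int (hu t) (hb t) (L.u t x) x
    rw [F.k_one, one_mul] at e
    rw [Lag.Z, ← e, av, osc, os]
    refine (abs_integral_le_integral_abs).trans (le_of_eq (integral_congr_ae
      (Eventually.of_forall fun s => ?_)))
    simp only [abs_mul, abs_of_nonneg (F.k_nonneg s)]

end MP34a893.C
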