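import Pool.Agent.MP_34a893_an.C.Spec
import Mathlib.Analysis.Calculus.ContDiff.Convolution

/-! From intervals to test functions. -/

open MeasureTheory Set Filter Topology

namespace MP34a893.C

namespace Weak

variable {S m ζ : ℝ → ℝ}

theorem loc {C : ℝ} (hS : Measurable S) (h : ∀ x, |S x| ≤ C) : LocallyIntegrable S :=
  (locallyIntegrable_const C).mono hS.aestronglyMeasurable
    (Eventually.of_forall fun x => (h x).trans (le_abs_self C))

theorem parts (hS : LocallyIntegrable S) (hζ : ContDiff ℝ 1 ζ) (hc : HasCompactSupport ζ) :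
    ∫ x, S x * ζ x = -∫ x, (∫ t in (0 : ℝ)..x, S t) * deriv ζ x := by
  obtain ⟨R, hR, hs⟩ := hc.isCompact.isBounded.subset_ball_lt 0 0
  rw [Real.ball_eq_Ioo, zero_sub, zero_add] at hs
  have h0 : ∀ x, x ∉ Ioo (-R) R → ζ x = 0 := fun x hx =>
    image_eq_zero_of_notMem_tsupport fun h => hx (hs h)
  have hi : IntervalIntegrable S volume (-R) R :=
    (hS.integrableOn_isCompact isCompact_uIcc).intervalIntegrable
  have e := (hi.absolutelyContinuousOnInterval_intervalIntegral (c := 0)
    (mem_uIcc_of_le (by linarith) hR.le)).integral_mul_deriv_eq_deriv_mul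
    (hζ.contDiffOn.absolutelyContinuousOnInterval (a := -R) (b := R))
  rw [h0 R (by simp), h0 (-R) (by simp), mul_zero, mul_zero, sub_zero, zero_sub,
    intervalIntegral.integral_eq_integral_of_support_subset,
    intervalIntegral.integral_eq_integral_of_support_subset] at e
  · rw [e, neg_neg]
    refine integral_congr_ae ?_
    filter_upwards [_root_.LocallyIntegrable.ae_hasDerivAt_integral hS] with x hx
    rw [(hx 0).deriv]
  · exact (Function.support_mul_subset_right _ _).trans
      ((subset_tsupport ζ).trans (hs.trans Ioo_subset_Ioc_self))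
  · exact (Function.support_mul_subset_right _ _).trans
      (support_deriv_subset.trans (hs.trans Ioo_subset_Ioc_self))

theorem anti (hm : Antitone m) (hζ : ContDiff ℝ 1 ζ) (hc : HasCompactSupport ζ)
    (h0 : ∀ x, 0 ≤ ζ x) : 0 ≤ ∫ x, m x * deriv ζ x := by
  have h1 : Monotone fun y => m (-y) := fun a b h => hm (neg_le_neg h)
  have d := hc.hasDerivAt_convolution_left (μ := volume) (ContinuousLinearMap.mul ℝ ℝ) hζ
    h1.locallyIntegrable 0
  have i : ∀ h : ℝ, Integrable fun t => ζ t * m (-(h - t)) := fun h =>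
    (Antitone.locallyIntegrable (f := fun t => m (-(h - t)))
      fun a b e => hm (by linarith)).integrable_smul_left_of_hasCompactSupport hζ.continuous hc
  have e := d.nonneg_of_monotone fun a b h => by
    simp only [convolution_def, ContinuousLinearMap.mul_apply']
    exact integral_mono (i a) (i b) fun t => mul_le_mul_of_nonneg_left (hm (by linarith)) (h0 t)
  simpa only [convolution_def, ContinuousLinearMap.mul_apply', zero_sub, neg_neg, mul_comm]
    using e

end Weak

open Weak in
theorem weakS : WeakS := by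
  intro S a d ζ C hS ha hd bS _ bd H hζ hc h0
  have lS := loc hS bS
  have iS : ∀ x y, IntervalIntegrable S volume x y := E.Err.intInt hS bS
  obtain ⟨F, hF⟩ : ∃ F : ℝ → ℝ, F = fun x => ∫ t in (0 : ℝ)..x, S t := ⟨_, rfl⟩
  have cF : Continuous F := hF ▸ intervalIntegral.continuous_primitive iS 0
  have low : ∀ x, F x - a x - d x ∈ lowerBounds ((fun y => F y - a y) '' Iic x) := by
    rintro x _ ⟨y, hy, rfl⟩
    have h1 := H y x hy
    have h2 := intervalIntegral.integral_interval_sub_left (iS 0 x) (iS 0 y)
    simp only [hF]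
    linarith
  obtain ⟨m, hm⟩ : ∃ m : ℝ → ℝ, m = fun x => sInf ((fun y => F y - a y) '' Iic x) := ⟨_, rfl⟩
  have am : Antitone m := fun x y h => by
    rw [hm]
    exact csInf_le_csInf ⟨_, low y⟩ ⟨_, x, self_mem_Iic, rfl⟩ (image_mono (Iic_subset_Iic.2 h))
  have m1 : ∀ x, m x ≤ F x - a x := fun x => hm ▸ csInf_le ⟨_, low x⟩ ⟨x, self_mem_Iic, rfl⟩
  have m2 : ∀ x, F x - a x - d x ≤ m x := fun x =>
    hm ▸ le_csInf ⟨_, x, self_mem_Iic, rfl⟩ (low x)
  have cd : Continuous (deriv ζ) := hζ.continuous_deriv le_rfl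
  have I : ∀ {g : ℝ → ℝ}, LocallyIntegrable g → Integrable fun x => g x * deriv ζ x := fun hg =>
    hg.integrable_smul_right_of_hasCompactSupport cd hc.deriv
  have ld : LocallyIntegrable d := loc hd fun x => by
    rw [abs_of_nonneg (bd x).1]
    exact (bd x).2
  have Id : Integrable fun x => d x * |deriv ζ x| :=
    ld.integrable_smul_right_of_hasCompactSupport cd.abs hc.deriv.abs
  have e := parts lS hζ hc
  have p := anti am hζ hc h0
  have IF := I cF.locallyIntegrable
  have Im := I am.locallyIntegrable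
  have le : ∫ x, (m x * deriv ζ x - F x * deriv ζ x) ≤
      ∫ x, (-(a x * deriv ζ x) + d x * |deriv ζ x|) := by
    refine integral_mono (Im.sub IF) ((I ha.locallyIntegrable).neg.add Id) fun x => ?_
    have h1 := m1 x
    have h2 := m2 x
    have h3 := neg_abs_le (deriv ζ x)
    have h4 := abs_nonneg (deriv ζ x)
    dsimp only
    nlinarith [mul_nonneg (sub_nonneg.2 h1) (sub_nonneg.2 h3), mul_nonneg (sub_nonneg.2 h2) h4]
  rw [integral_sub Im IF] at le
  rw [e]
  simp only [hF] at le
  linarith

end MP34a893.C
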