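import Pool.Agent.MP_34a893_an.C.Tv
import Pool.Agent.MP_34a893_an.C.Cg
import Pool.Agent.MP_34a893_an.C.Mon
import Pool.Agent.MP_34a893_an.C.Fin
import Pool.Agent.MP_34a893_an.C.Lim
import Pool.Agent.MP_34a893_an.C.Seq
import Pool.Agent.MP_34a893_an.C.Rep
import Pool.Agent.MP_34a893_an.C.Apx
import Pool.Agent.MP_34a893_an.C.Weak
import Pool.Agent.MP_34a893_an.C.Sol
import Pool.Agent.MP_34a893_an.C.Ent
import Pool.Agent.MP_34a893_an.C.Dis
import Pool.Agent.MP_34a893_an.C.Slo
import Pool.Agent.MP_34a893_an.C.Qua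
import Pool.Agent.MP_34a893_an.C.Err
import Pool.Agent.MP_34a893_an.C.Main

namespace MP34a893.C

theorem osc_all : OscS := oscS parFactsS E.lag_all

theorem lim_all : LimS := limS parFactsS (finS cgS tvS (monS tvS))

theorem main_all : MainS :=
  mainS parS (potS sliceS) (rangeS sliceS coneS)
    (scaleS parFactsS E.lag_all (potS sliceS)
      (lagS parFactsS convS (velS parFactsS) flowS constS covS jacOdeS)
      (maxS parFactsS E.lag_all))
    parFactsS E.lag_all
    (entS parFactsS E.lag_all (E.entAS2 parFactsS E.lag_all E.absTS) weakS osc_all)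
    (errS parFactsS E.lag_all osc_all (disS parFactsS E.lag_all osc_all)
      (sloS parFactsS E.lag_all E.chainS) (quaS parFactsS E.lag_all))
    (seqS parFactsS) (posS parFactsS repS) (apxS parFactsS repS) lim_all
    (solS parFactsS E.lag_all) osc_all E.scaS E.locS (E.kuzS (E.dblS E.oneS) E.ctsS E.modS)

end MP34a893.C
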