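import Pool.Agent.MP_34a893_an.Defs
import Mathlib.Analysis.Calculus.IteratedDeriv.Defs

open Set

namespace MP34a893

/-- `k` is completely monotone on `(0,∞)`: derivatives of all orders exist there and
`(-1)^n k^(n) ≥ 0`. -/
def CompMono (k : ℝ → ℝ) : Prop :=
  ∀ n : ℕ, DifferentiableOn ℝ (iteratedDeriv n k) (Ioi 0) ∧
    ∀ s ∈ Ioi (0 : ℝ), 0 ≤ (-1) ^ n * iteratedDeriv n k s

end MP34a893
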