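import Pool.Agent.MP_34a893_an.C.Spec

/-! The local oscillation is controlled by the slope of the look-ahead average. -/

open MeasureTheory Set Filter Topology

namespace MP34a893.C

namespace Qua

theorem exc_int {P : Par} {M : ℝ} (F : P.Facts M) {Λ : ℝ} :
    IntegrableOn (fun s => max (P.k s - Λ * P.g s) 0) (Ioi 0) :=
  (F.k_int.sub (P.hgi.integrableOn.const_mul Λ)).pos_part

theorem exc {P : Par} {M : ℝ} (F : P.Facts M) (h : Pos P) {ε : ℝ} (hε : 0 < ε) :
    ∃ Λ : ℝ, 0 ≤ Λ ∧ ∫ s in Ioi (0 : ℝ), max (P.k s - Λ * P.g s) 0 ≤ ε := by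
  have t : Tendsto (fun n : ℕ => ∫ s in Ioi (0 : ℝ), max (P.k s - n * P.g s) 0) atTop
      (𝓝 (∫ _ in Ioi (0 : ℝ), (0 : ℝ))) := by
    refine tendsto_integral_of_dominated_convergence P.k (fun n => (exc_int F).1) F.k_int
      (fun n => Eventually.of_forall fun s => ?_) ?_
    · rw [Real.norm_eq_abs, abs_of_nonneg (le_max_right _ _)]
      exact max_le (sub_le_self _ (mul_nonneg n.cast_nonneg (P.hg0 s))) (F.k_nonneg s)
    · filter_upwards [ae_restrict_of_ae h, ae_restrict_mem measurableSet_Ioi] with s a b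
      refine tendsto_const_nhds.congr' ?_
      filter_upwards [(tendsto_natCast_atTop_atTop (R := ℝ)).eventually_ge_atTop (P.k s / P.g s)]
        with n hn
      rw [div_le_iff₀ (a b)] at hn
      exact (max_eq_right (sub_nonpos.2 hn)).symm
  rw [integral_zero] at t
  obtain ⟨n, hn⟩ := (t.eventually (ge_mem_nhds hε)).exists
  exact ⟨n, n.cast_nonneg, hn⟩

theorem gint (P : Par) {w : ℝ → ℝ} {N : ℝ} (hw : Measurable w) (hb : ∀ x, w x ∈ Icc 0 N) (x : ℝ) :
    IntegrableOn (fun s => P.g s * w (x + s)) (Ioi 0) :=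
  P.hgi.integrableOn.mul_bdd (c := N) (hw.comp (measurable_const_add x)).aestronglyMeasurable
    (Eventually.of_forall fun _ => (abs_of_nonneg (hb _).1).trans_le (hb _).2)

theorem gmeas (P : Par) {w : ℝ → ℝ} (hw : Measurable w) :
    Measurable fun x => ∫ s in Ioi (0 : ℝ), P.g s * w (x + s) :=
  (StronglyMeasurable.integral_prod_right (f := fun x s => P.g s * w (x + s))
    (Measurable.stronglyMeasurable ((P.hg.comp measurable_snd).mul
      (hw.comp measurable_add)))).measurable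

theorem point {P : Par} {M : ℝ} (F : P.Facts M) {u : ℝ → ℝ} {N Λ e ε : ℝ} (hN : 0 < N)
    (hu : Measurable u) (hb : ∀ x, u x ∈ Icc 0 N) (hw : ∀ x, u x ^ 2 / N ∈ Icc 0 N) (hΛ : 0 ≤ Λ)
    (he : 0 < e) (hε : ∫ s in Ioi (0 : ℝ), max (P.k s - Λ * P.g s) 0 ≤ ε) (x : ℝ) :
    os P.k u (u x) x ≤ ε * N + Λ * e * P.k0 + Λ / e *
      (2 * N * |P.k0 * u x - ∫ s in Ioi (0 : ℝ), P.g s * u (x + s)| +
        N * ((∫ s in Ioi (0 : ℝ), P.g s * (u (x + s) ^ 2 / N)) - P.k0 * (u x ^ 2 / N))) := by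
  have i1 := (exc_int F (Λ := Λ)).mul_const N
  have i2 := P.hgi.integrableOn (s := Ioi 0).const_mul (Λ * e + Λ / e * u x ^ 2)
  have i3 := (gint P hu hb x).const_mul (Λ / e * (2 * u x))
  have i4 := (gint P (w := fun x => u x ^ 2 / N) ((hu.pow_const 2).div_const N) hw x).const_mul
    (Λ / e * N)
  have h1 : os P.k u (u x) x ≤ ∫ s in Ioi (0 : ℝ), (max (P.k s - Λ * P.g s) 0 * N +
      (Λ * e + Λ / e * u x ^ 2) * P.g s - Λ / e * (2 * u x) * (P.g s * u (x + s)) +
      Λ / e * N * (P.g s * (u (x + s) ^ 2 / N))) := by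
    refine integral_mono_of_nonneg (Eventually.of_forall fun s =>
      mul_nonneg (F.k_nonneg s) (abs_nonneg _)) (((i1.add i2).sub i3).add i4)
      (Eventually.of_forall fun s => ?_)
    have a1 : |u (x + s) - u x| ≤ N :=
      abs_le.2 ⟨by linarith [(hb (x + s)).1, (hb x).2], by linarith [(hb (x + s)).2, (hb x).1]⟩
    have a2 : |u (x + s) - u x| ≤ e + (u (x + s) - u x) ^ 2 / e := by
      rw [← sq_abs, ← sub_le_iff_le_add', le_div_iff₀ he]
      nlinarith [sq_nonneg (|u (x + s) - u x| - e), mul_nonneg (abs_nonneg (u (x + s) - u x)) he.le]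
    have a3 := mul_le_mul (le_max_left (P.k s - Λ * P.g s) 0) le_rfl
      (abs_nonneg (u (x + s) - u x)) (le_max_right _ _)
    have a4 := mul_le_mul_of_nonneg_left a1 (le_max_right (P.k s - Λ * P.g s) 0)
    have a5 := mul_le_mul_of_nonneg_left a2 (mul_nonneg hΛ (P.hg0 s))
    have a6 : Λ * P.g s * (e + (u (x + s) - u x) ^ 2 / e) = (Λ * e + Λ / e * u x ^ 2) * P.g s -
        Λ / e * (2 * u x) * (P.g s * u (x + s)) + Λ / e * N * (P.g s * (u (x + s) ^ 2 / N)) := by
      field_simp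
      ring
    change P.k s * |u (x + s) - u x| ≤ _
    linarith
  rw [integral_add ((i1.fun_add i2).sub' i3) i4, integral_sub (i1.fun_add i2) i3,
    integral_add i1 i2,
    integral_mul_const, integral_const_mul, integral_const_mul, integral_const_mul, F.g_int] at h1
  set G := ∫ s in Ioi (0 : ℝ), P.g s * u (x + s)
  set H := ∫ s in Ioi (0 : ℝ), P.g s * (u (x + s) ^ 2 / N)
  have b1 := mul_le_mul_of_nonneg_right hε hN.le
  have b2 : u x * (P.k0 * u x - G) ≤ N * |P.k0 * u x - G| :=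
    (mul_le_mul_of_nonneg_left (le_abs_self _) (hb x).1).trans
      (mul_le_mul_of_nonneg_right (hb x).2 (abs_nonneg _))
  have b3 := mul_le_mul_of_nonneg_left b2 (div_nonneg hΛ he.le)
  have b4 : N * (P.k0 * (u x ^ 2 / N)) = P.k0 * u x ^ 2 := by field_simp
  rw [mul_sub N, b4]
  linarith

end Qua

open Qua in
theorem quaS (hP : ParFactsS) (hL : LagFactsS) : QuaS := by
  intro P M hM hpos e he
  have F := hP P M hM
  have hN := F.N_pos
  have k0 := F.k0_pos
  obtain ⟨Λ, hΛ, hε⟩ := exc F hpos (ε := e / (4 * P.N M)) (by positivity)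
  have he' : 0 < e / (4 * (Λ + 1) * P.k0) := by positivity
  set e' := e / (4 * (Λ + 1) * P.k0) with ee
  have c0 : 0 ≤ Λ / e' := div_nonneg hΛ he'.le
  refine ⟨Λ / e' * (2 * P.N M + P.N M ^ 2), by positivity, fun L t S hS => ?_⟩
  have FL := hL P M L hM
  have um : Measurable (L.u t) := L.u_meas.of_uncurry_left
  have ub : ∀ x, L.u t x ∈ Icc 0 (P.N M) := fun x => ⟨FL.u_nonneg t x, L.u_le t x⟩
  have wb : ∀ x, L.u t x ^ 2 / P.N M ∈ Icc 0 (P.N M) := fun x =>
    ⟨by positivity, by rw [div_le_iff₀ hN]; nlinarith [(ub x).1, (ub x).2]⟩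
  have wm : Measurable fun x => L.u t x ^ 2 / P.N M := (um.pow_const 2).div_const _
  obtain ⟨v1, v2, -⟩ := velS hP P M _ hM wm wb _ _ (fun _ => rfl) fun _ => rfl
  have j1 : IntervalIntegrable (fun x => |P.k0 * L.u t x - L.G t x|) volume (-S) S := by
    refine (LF.intInt (C := P.k0 * P.N M) ((um.const_mul _).sub (gmeas P um)) (fun x => ?_) _ _).abs
    have a := mul_le_mul_of_nonneg_left (ub x).2 k0.le
    have b := mul_nonneg k0.le (ub x).1
    have c := FL.G_mem t x
    change |P.k0 * L.u t x - L.G t x| ≤ _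
    exact abs_le.2 ⟨by linarith [c.2], by linarith [c.1]⟩
  have j2 : IntervalIntegrable (fun x => (∫ s in Ioi (0 : ℝ), P.g s * (L.u t (x + s) ^ 2 / P.N M)) -
      P.k0 * (L.u t x ^ 2 / P.N M)) volume (-S) S := by
    refine LF.intInt (C := P.k0 * P.N M) ((gmeas P wm).sub (wm.const_mul _)) (fun x => ?_) _ _
    have a := mul_le_mul_of_nonneg_left (wb x).2 k0.le
    have b := mul_nonneg k0.le (wb x).1
    have c := (v1 x).2
    rw [Pi.sub_apply]
    exact abs_le.2 ⟨by linarith only [a, c.1], by linarith only [b, c.2]⟩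
  have j3 := (j1.const_mul (2 * P.N M)).add (j2.const_mul (P.N M))
  have h := E.Err.mono (a := -S) (b := S) (by linarith) (f := osc L t)
    (fun x => integral_nonneg fun s => mul_nonneg (F.k_nonneg s) (abs_nonneg _))
    (intervalIntegrable_const.add (j3.const_mul (Λ / e'))) (point F hN um ub wb hΛ he' hε)
  rw [intervalIntegral.integral_add intervalIntegrable_const (j3.const_mul _),
    intervalIntegral.integral_const_mul,
    intervalIntegral.integral_add (j1.const_mul _) (j2.const_mul _),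
    intervalIntegral.integral_const_mul, intervalIntegral.integral_const_mul, ← v2,
    intervalIntegral.integral_const, smul_eq_mul] at h
  have p0 : 0 ≤ ∫ x in (-S)..S, |P.k0 * L.u t x - L.G t x| :=
    intervalIntegral.integral_nonneg (by linarith) fun x _ => abs_nonneg _
  set I := ∫ x in (-S)..S, |P.k0 * L.u t x - L.G t x|
  have q1 : e / (4 * P.N M) * P.N M = e / 4 := by field_simp
  have q2 : Λ * e' * P.k0 ≤ e / 4 := by
    have : (Λ + 1) * e' * P.k0 = e / 4 := by
      rw [ee]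
      field_simp
    nlinarith [mul_pos he' k0]
  have q3 := mul_le_mul_of_nonneg_left q2 hS
  have q4 := mul_le_mul_of_nonneg_left (sub_le_sub (v1 S).1.2 (v1 (-S)).1.1) (mul_nonneg c0 hN.le)
  have q5 := mul_nonneg c0 hN.le
  have q6 := mul_nonneg (mul_nonneg c0 (sq_nonneg (P.N M))) p0
  rw [q1] at h
  refine h.trans ?_
  nlinarith

end MP34a893.C
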