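import Pool.Agent.MP_34a893_an.E.All
import Pool.Agent.MP_34a893_an.C.Defs

/-! Completely monotone kernels, general velocity: statements of the rows. -/

open MeasureTheory Set Filter Topology

namespace MP34a893.C

noncomputable section

/-- look-ahead average -/
def av (k f : ℝ → ℝ) (x : ℝ) : ℝ := ∫ s in Ioi (0 : ℝ), k s * f (x + s)

/-- look-ahead distance to the constant `c` -/
def os (k f : ℝ → ℝ) (c x : ℝ) : ℝ := ∫ s in Ioi (0 : ℝ), k s * |f (x + s) - c|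

/-- finite mixtures of exponentials and minus their derivative -/
def mk {n : ℕ} (ρ l : Fin n → ℝ) (s : ℝ) : ℝ := ∑ i, ρ i * Real.exp (-(l i * s))
def mg {n : ℕ} (ρ l : Fin n → ℝ) (s : ℝ) : ℝ := ∑ i, ρ i * l i * Real.exp (-(l i * s))

/-- monotone `C¹` profile with bounded slope -/
structure Prof (φ β : ℝ → ℝ) (B : ℝ) : Prop where
  der : ∀ z, HasDerivAt φ (β z) z
  cont : Continuous β
  mem : ∀ z, β z ∈ Icc 0 B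

/-- the static entropy inequality on an interval, selector between `k0 f` and `g * f` -/
def Stat (k g : ℝ → ℝ) (k0 θ : ℝ) : Prop :=
  ∀ (f φ β : ℝ → ℝ) (C B : ℝ), Measurable f → (∀ x, |f x| ≤ C) → Prof φ β B →
    ∀ c x1 x2, x1 ≤ x2 →
      ∫ x in x1..x2, Real.sign (k0 * f x + θ * (av g f x - k0 * f x)) *
          (β (av k f x) * (av g f x - k0 * f x)) ≤
        |φ (av k f x2) - φ 0| - |φ (av k f x1) - φ 0| + 2 * B * os k f c x2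

/-- conjugate gradients: the birth and death chain of a finite mixture -/
def CgS : Prop := ∀ (n : ℕ) (ρ l : Fin n → ℝ), (∀ i, 0 ≤ ρ i) → (∀ i, 0 < l i) → 0 < ∑ i, ρ i →
  ∃ (m : ℕ) (α β : ℕ → ℝ) (r : ℕ → Fin n → ℝ), 1 ≤ m ∧ (∀ j, 0 ≤ α j) ∧ (∀ j, 0 ≤ β j) ∧
    α 0 = 0 ∧ (∀ i, r 0 i = 1) ∧ (∀ j, 1 ≤ j → j ≤ m → ∑ i, ρ i * r j i = 0) ∧
    (∀ i, ρ i * r m i = 0) ∧
    ∀ j, j < m → ∀ i, l i * r j i = α j * (r j i - r (j - 1) i) + β j * (r j i - r (j + 1) i)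

/-- the variation along the chain -/
def tv (m : ℕ) (φ : ℝ → ℝ) (ω : ℕ → ℝ → ℝ) (x : ℝ) : ℝ :=
  ∑ j ∈ Finset.range m, |φ (ω j x) - φ (ω (j + 1) x)|

/-- Sturm's principle in integrated form -/
def TvS : Prop := ∀ (m : ℕ) (α β : ℕ → ℝ) (ω ω' : ℕ → ℝ → ℝ) (φ b S : ℝ → ℝ) (B x1 x2 : ℝ)
  (K : NNReal), 1 ≤ m → (∀ j, 0 ≤ α j) → (∀ j, 0 ≤ β j) → Prof φ b B → x1 ≤ x2 →
  (∀ j, j ≤ m → LipschitzOnWith K (ω j) (Icc x1 x2)) →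
  (∀ᵐ x, x ∈ Ioo x1 x2 → ∀ j, j ≤ m → HasDerivAt (ω j) (ω' j x) x) → (∀ x, ω m x = 0) →
  (∀ x ∈ Ioo x1 x2, ∀ j, 1 ≤ j → j < m →
    ω' j x = α j * (ω j x - ω (j - 1) x) + β j * (ω j x - ω (j + 1) x)) →
  IntervalIntegrable S volume x1 x2 →
  (∀ x ∈ Ioo x1 x2, S x ≤ Real.sign (ω 0 x - ω 1 x) * (b (ω 0 x) * ω' 0 x)) →
    ∫ x in x1..x2, S x ≤ tv m φ ω x2 - tv m φ ω x1

/-- the kernels of the chain decrease along the chain -/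
def MonS : Prop := ∀ (n m : ℕ) (ρ l : Fin n → ℝ) (α β : ℕ → ℝ) (r : ℕ → Fin n → ℝ), 1 ≤ m →
  (∀ i, 0 ≤ ρ i) → (∀ j, 0 ≤ α j) → (∀ j, 0 ≤ β j) → α 0 = 0 → (∀ i, r 0 i = 1) →
  (∀ j, 1 ≤ j → j ≤ m → ∑ i, ρ i * r j i = 0) → (∀ i, ρ i * r m i = 0) →
  (∀ j, j < m → ∀ i, l i * r j i = α j * (r j i - r (j - 1) i) + β j * (r j i - r (j + 1) i)) →
    ∀ s, 0 ≤ s → ∀ j, j < m →
      mk (fun i => ρ i * r (j + 1) i) l s ≤ mk (fun i => ρ i * r j i) l s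

def FinS : Prop := ∀ (n : ℕ) (ρ l : Fin n → ℝ), (∀ i, 0 ≤ ρ i) → (∀ i, 0 < l i) → 0 < ∑ i, ρ i →
  Stat (mk ρ l) (mg ρ l) (∑ i, ρ i) 1

/-- the kernel is a limit of finite mixtures -/
def Apx (P : Par) : Prop := ∀ ε, 0 < ε → ∃ (n : ℕ) (ρ l : Fin n → ℝ), (∀ i, 0 ≤ ρ i) ∧
  (∀ i, 0 < l i) ∧ ∑ i, ρ i = P.k0 ∧ ∫ s in Ioi (0 : ℝ), |P.g s - mg ρ l s| ≤ ε ∧
    ∫ s in Ioi (0 : ℝ), |P.k s - mk ρ l s| ≤ ε

def LimS : Prop := ∀ P : Par, Apx P → ∀ θ ∈ Icc (0 : ℝ) (1 / 2), Stat P.k P.g P.k0 θ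

/-- signed derivatives of a completely monotone kernel -/
structure Seq (P : Par) (F : ℕ → ℝ → ℝ) : Prop where
  meas : ∀ n, Measurable (F n)
  nonneg : ∀ n s, 0 < s → 0 ≤ F n s
  g_eq : ∀ᵐ s, 0 < s → P.g s = F 1 s
  int : ∀ n s, 0 < s → IntegrableOn (F (n + 1)) (Ioi s)
  tail : ∀ n s, 0 < s → F n s = ∫ t in Ioi s, F (n + 1) t

def SeqS : Prop := ∀ (P : Par) (k : ℝ → ℝ), (∀ s, 0 ≤ s → P.k s = k s) → CompMono k →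
  ∃ F, Seq P F

/-- Taylor's formula at infinity -/
def RepS : Prop := ∀ (P : Par) (F : ℕ → ℝ → ℝ), Seq P F → ∀ (n : ℕ) (s : ℝ), 0 < s →
  IntegrableOn (fun t => (t - s) ^ n / n.factorial * F (n + 2) t) (Ioi s) ∧
    F 1 s = ∫ t in Ioi s, (t - s) ^ n / n.factorial * F (n + 2) t

def Pos (P : Par) : Prop := ∀ᵐ s, 0 < s → 0 < P.g s

def PosS : Prop := ∀ (P : Par) (F : ℕ → ℝ → ℝ), Seq P F → Pos P

def ApxS : Prop := ∀ (P : Par) (F : ℕ → ℝ → ℝ), Seq P F → Apx P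

/-- from intervals to test functions -/
def WeakS : Prop := ∀ (S a d ζ : ℝ → ℝ) (C : ℝ), Measurable S → Continuous a → Measurable d →
  (∀ x, |S x| ≤ C) → (∀ x, |a x| ≤ C) → (∀ x, d x ∈ Icc 0 C) →
  (∀ x1 x2, x1 ≤ x2 → ∫ x in x1..x2, S x ≤ a x2 - a x1 + d x2) →
  ContDiff ℝ 1 ζ → HasCompactSupport ζ → (∀ x, 0 ≤ ζ x) →
    ∫ x, S x * ζ x ≤ ∫ x, (-(a x * deriv ζ x) + d x * |deriv ζ x|)

/-- the static inequality for the solution -/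
def St {P : Par} {M : ℝ} (L : Lag P M) : Prop :=
  ∀ θ ∈ Icc (0 : ℝ) (1 / 2), ∀ z ∈ Icc 0 (P.N M), ∀ t x1 x2, x1 ≤ x2 →
    ∫ x in x1..x2, Real.sign (P.k0 * (L.u t x - z) + θ * (L.G t x - P.k0 * L.u t x)) *
        (P.b (L.Z t x) * (L.G t x - P.k0 * L.u t x)) ≤
      |L.v t x2 - P.Φ z| - |L.v t x1 - P.Φ z| + 2 * P.bm M * os P.k (L.u t) (L.u t x2) x2

def SolS : Prop := ∀ (P : Par) (M : ℝ) (L : Lag P M), 0 < M →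
  (∀ θ ∈ Icc (0 : ℝ) (1 / 2), Stat P.k P.g P.k0 θ) → St L

/-- the local oscillation -/
def osc {P : Par} {M : ℝ} (L : Lag P M) (t x : ℝ) : ℝ := os P.k (L.u t) (L.u t x) x

def OscS : Prop := ∀ (P : Par) (M : ℝ) (L : Lag P M), 0 < M →
  Measurable (Function.uncurry (osc L)) ∧ (∀ t x, osc L t x ∈ Icc 0 (P.N M)) ∧
    ∀ t x, |L.Z t x - L.u t x| ≤ osc L t x

def EntS : Prop := ∀ (P : Par) (M : ℝ) (L : Lag P M), 0 < M → St L →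
  E.App L.T M P.f L.q (fun t x => 4 * M * P.bm M * osc L t x)

def DisS : Prop := ∀ (P : Par) (M : ℝ), 0 < M → ∃ C, 0 ≤ C ∧ ∀ (L : Lag P M) (S T' : ℝ), St L →
  0 ≤ S → 0 ≤ T' → T' ≤ L.T →
    ∫ t in (0 : ℝ)..T', ∫ x in (-S)..S, P.b (L.Z t x) * (P.k0 * L.u t x - L.G t x) ^ 2 ≤
      C * (S + T' + 1)

/-- the slope of `Z` is controlled by the dissipation -/
def SloS : Prop := ∀ (P : Par) (M : ℝ), 0 < M → (∀ z ∈ Ioo 0 (P.N M), 0 < P.b z) → Pos P →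
  ∀ e, 0 < e → ∃ A, 0 ≤ A ∧ ∀ (L : Lag P M) (t S : ℝ), 0 ≤ S →
    ∫ x in (-S)..S, |P.k0 * L.u t x - L.G t x| ≤
      e * S + A * (1 + ∫ x in (-S)..S, P.b (L.Z t x) * (P.k0 * L.u t x - L.G t x) ^ 2)

/-- the oscillation is controlled by the slope of `Z` -/
def QuaS : Prop := ∀ (P : Par) (M : ℝ), 0 < M → Pos P →
  ∀ e, 0 < e → ∃ A, 0 ≤ A ∧ ∀ (L : Lag P M) (t S : ℝ), 0 ≤ S →
    ∫ x in (-S)..S, osc L t x ≤ e * S + A * (1 + ∫ x in (-S)..S, |P.k0 * L.u t x - L.G t x|)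

def ErrS : Prop := ∀ (P : Par) (M : ℝ), 0 < M → (∀ z ∈ Ioo 0 (P.N M), 0 < P.b z) → Pos P →
  ∀ e, 0 < e → ∃ S0, 0 < S0 ∧ ∀ (L : Lag P M) (S T' : ℝ), St L → S0 ≤ S → 0 ≤ T' → T' ≤ S →
    T' ≤ L.T → ∫ t in (0 : ℝ)..T', ∫ x in (-S)..S, osc L t x ≤ e * S ^ 2

def MainS : Prop := ∀ (p T M : ℝ) (V γ q0 : ℝ → ℝ) (q : ℝ → ℝ → ℝ → ℝ) (qs : ℝ → ℝ → ℝ),
  0 < p → p < 1 → 0 < T → 0 < M → ContDiff ℝ 1 V → (∀ x, deriv V x ≤ 0) →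
  (∀ x ∈ Ioo 0 M, deriv V x < 0) → IsKernel p γ → CompMono (fun s => γ s ^ p) →
  Measurable q0 → (∀ x, q0 x ∈ Icc 0 M) → (∀ η, 0 < η → IsWeakSol p η T V γ q0 (q η)) →
  IsEntropySol T V q0 qs →
    ∀ a c e, 0 < e → ∃ η0, 0 < η0 ∧ ∀ η, 0 < η → η < η0 → ∀ t ∈ Icc 0 T,
      ∫ x in Icc a c, |q η t x - qs t x| ≤ e

end

end MP34a893.C
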