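import Pool.Agent.MP_34a893_an.C.Spec

/-! Sturm's principle along the chain. -/

open MeasureTheory Set Filter Topology

namespace MP34a893.C

namespace Tv

theorem mono {φ b : ℝ → ℝ} {B : ℝ} (h : Prof φ b B) : Monotone φ :=
  monotone_of_deriv_nonneg (fun z => (h.der z).differentiableAt) fun z => by
    rw [(h.der z).deriv]
    exact (h.mem z).1

theorem lip {φ b : ℝ → ℝ} {B : ℝ} (h : Prof φ b B) :
    LipschitzWith ⟨B, (h.mem 0).1.trans (h.mem 0).2⟩ φ :=
  lipschitzWith_of_nnnorm_deriv_le (fun z => (h.der z).differentiableAt) fun z => by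
    rw [(h.der z).deriv]
    exact (abs_of_nonneg (h.mem z).1).trans_le (h.mem z).2

theorem sgn {φ b : ℝ → ℝ} {B : ℝ} (h : Prof φ b B) {a : ℝ} (hb : 0 < b a) (c : ℝ) :
    Real.sign (φ a - φ c) = Real.sign (a - c) := by
  have k := E.EntB.strict (Φ := fun z => -φ z) (h.der a).neg hb (mono h).neg c
  rw [show -φ a - -φ c = -(φ a - φ c) by ring, Real.sign_neg, show c - a = -(a - c) by ring,
    Real.sign_neg] at k
  linarith

theorem alg {α β A D : ℝ} (hα : 0 ≤ α) (hβ : 0 ≤ β) :
    0 ≤ (Real.sign D - Real.sign A) * (α * (-A) + β * D) := by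
  have h1 : 0 ≤ (Real.sign A - Real.sign D) * A := by
    unfold Real.sign
    split_ifs <;> linarith
  have h2 : 0 ≤ (Real.sign D - Real.sign A) * D := by
    unfold Real.sign
    split_ifs <;> linarith
  nlinarith [mul_nonneg hα h1, mul_nonneg hβ h2]

theorem abel (σ d : ℕ → ℝ) (m : ℕ) :
    ∑ j ∈ Finset.range (m + 1), σ j * (d j - d (j + 1)) =
      σ 0 * d 0 + ∑ j ∈ Finset.range m, (σ (j + 1) - σ j) * d (j + 1) - σ m * d (m + 1) := by
  induction m with
  | zero => simp [mul_sub]
  | succ m ih =>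
    rw [Finset.sum_range_succ, ih, Finset.sum_range_succ]
    ring

end Tv

open Tv in
theorem tvS : TvS := by
  intro m α β ω ω' φ b S B x1 x2 K hm hα hβ hφ hx hl hd h0 he hS hs
  obtain ⟨m, rfl⟩ : ∃ k, m = k + 1 := ⟨m - 1, by omega⟩
  set a : ℕ → ℝ → ℝ := fun j x => φ (ω j x) - φ (ω (j + 1) x) with ha
  have ac : ∀ j ∈ Finset.range (m + 1),
      AbsolutelyContinuousOnInterval (fun x => |a j x|) x1 x2 := fun j hj => by
    have hj' := Finset.mem_range.1 hj
    have l1 := (lip hφ).comp_lipschitzOnWith (hl j hj'.le)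
    have l2 := (lip hφ).comp_lipschitzOnWith (hl (j + 1) hj')
    have l3 := E.Calc.lip_abs (l1.sub l2)
    rw [← uIcc_of_le hx] at l3
    exact l3.absolutelyContinuousOnInterval
  have e : tv (m + 1) φ ω x2 - tv (m + 1) φ ω x1 =
      ∫ x in x1..x2, ∑ j ∈ Finset.range (m + 1), deriv (fun x => |a j x|) x := by
    rw [intervalIntegral.integral_finsetSum fun j hj => (ac j hj).intervalIntegrable_deriv,
      tv, tv, ← Finset.sum_sub_distrib]
    exact Finset.sum_congr rfl fun j hj => (ac j hj).integral_deriv_eq_sub.symm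
  rw [e]
  have i2 : IntervalIntegrable
      (fun x => ∑ j ∈ Finset.range (m + 1), deriv (fun x => |a j x|) x) volume x1 x2 := by
    have := IntervalIntegrable.sum (Finset.range (m + 1))
      fun j hj => (ac j hj).intervalIntegrable_deriv
    refine this.congr fun x _ => ?_
    simp
  refine intervalIntegral.integral_mono_ae_restrict hx hS i2 ?_
  rw [EventuallyLE, ae_restrict_iff' measurableSet_Icc]
  filter_upwards [hd, Measure.ae_ne volume x1, Measure.ae_ne volume x2] with x hd n1 n2 hx'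
  have hx2 : x ∈ Ioo x1 x2 := ⟨lt_of_le_of_ne hx'.1 n1.symm, lt_of_le_of_ne hx'.2 n2⟩
  have hd := hd hx2
  set d : ℕ → ℝ := fun j => b (ω j x) * ω' j x with hdd
  have e1 : ∀ j ∈ Finset.range (m + 1), deriv (fun x => |a j x|) x =
      Real.sign (a j x) * (d j - d (j + 1)) := fun j hj => by
    have hj' := Finset.mem_range.1 hj
    exact E.Calc.deriv_abs (((hφ.der _).comp x (hd j hj'.le)).sub
      ((hφ.der _).comp x (hd (j + 1) hj')))
  rw [Finset.sum_congr rfl e1, abel]
  have z : ω' (m + 1) x = 0 := by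
    have := hd (m + 1) le_rfl
    rw [show ω (m + 1) = fun _ => 0 from funext h0] at this
    exact this.unique (hasDerivAt_const x 0)
  have t0 : Real.sign (ω 0 x - ω 1 x) * (b (ω 0 x) * ω' 0 x) = Real.sign (a 0 x) * d 0 := by
    rcases (hφ.mem (ω 0 x)).1.eq_or_lt with c | c
    · simp [hdd, ← c]
    · rw [← sgn hφ c]
  have t1 : 0 ≤ ∑ j ∈ Finset.range m,
      (Real.sign (a (j + 1) x) - Real.sign (a j x)) * d (j + 1) :=
    Finset.sum_nonneg fun j hj => by
      have hj' := Finset.mem_range.1 hj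
      rcases (hφ.mem (ω (j + 1) x)).1.eq_or_lt with c | c
      · simp [hdd, ← c]
      · have s1 : Real.sign (a (j + 1) x) = Real.sign (ω (j + 1) x - ω (j + 1 + 1) x) := sgn hφ c _
        have s2 : Real.sign (a j x) = Real.sign (ω j x - ω (j + 1) x) := by
          have := sgn hφ c (ω j x)
          rw [← neg_sub (φ (ω j x)), ← neg_sub (ω j x), Real.sign_neg, Real.sign_neg] at this
          exact neg_injective this
        have := mul_nonneg c.le (alg (A := ω j x - ω (j + 1) x)
          (D := ω (j + 1) x - ω (j + 1 + 1) x) (hα (j + 1)) (hβ (j + 1)))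
        simp only [hdd, s1, s2, he x hx2 (j + 1) (by omega) (by omega), Nat.add_sub_cancel]
        linarith
  have := hs x hx2
  simp only [hdd, z, mul_zero, sub_zero] at t0 t1 ⊢
  linarith

end MP34a893.C
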